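import Pool.Agent.H261R3.WS.Final

/-!
Assembly: the quotient space is complete, geodesic, all hinges satisfy the comparison, but it is
not an Alexandrov space of curvature `≥ 0`.
-/

set_option autoImplicit false
set_option maxHeartbeats 400000
open MeasureTheory Set Filter
open scoped symmDiff ENNReal Topology

namespace H261WS
namespace Sys

variable {S : Sys}

lemma base_mem (w : W) : base1 ∈ S.X w ∧ base2 ∈ S.X w ∧ base3 ∈ S.X w :=
  ⟨subset_closure (Or.inl (Or.inl rfl)), subset_closure (Or.inl (Or.inr (Or.inl rfl))),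
    subset_closure (Or.inl (Or.inr (Or.inr rfl)))⟩

lemma base_XX : base1 ∈ S.XX ∧ base2 ∈ S.XX ∧ base3 ∈ S.XX := by
  have : Nonempty W := by
    rw [← Cardinal.mk_ne_zero_iff, mk_W]; exact Cardinal.continuum_ne_zero
  obtain ⟨w⟩ := ‹Nonempty W›
  obtain ⟨h1, h2, h3⟩ := base_mem (S := S) w
  exact ⟨mem_XX.2 ⟨w, h1⟩, mem_XX.2 ⟨w, h2⟩, mem_XX.2 ⟨w, h3⟩⟩

lemma config (S : Sys) : ∃ p ∈ S.XX, dist p base1 = 1/3 ∧ dist p base2 = 1/3 ∧
    dist p base3 = 2/3 := by
  obtain ⟨x1, x2, x3⟩ := base_XX (S := S)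
  have hne : edist base1 base2 ≠ 0 := by
    rw [Ne, edist_zero_iff, dist_base12]; norm_num
  obtain ⟨v, hv, o1, o2⟩ := joined x1 x2 hne
  obtain ⟨b1, b2, b3⟩ := base_mem (S := S) v
  have hh : (1/2 : ℝ) ∈ Icc (0:ℝ) 1 := by constructor <;> norm_num
  have z0 : (0 : ℝ) ∈ Icc (0:ℝ) 1 := ⟨le_rfl, zero_le_one⟩
  have z1 : (1 : ℝ) ∈ Icc (0:ℝ) 1 := ⟨zero_le_one, le_rfl⟩
  have eA : dist (S.Seg v (1/2)) (S.A v) = 1/2 * dist (S.A v) (S.B v) := by
    rw [dist_congr (edist_self _) (Seg_zero hv), dist_Seg hv hh z0]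
    congr 1; rw [abs_of_nonneg] <;> norm_num
  have eB : dist (S.Seg v (1/2)) (S.B v) = 1/2 * dist (S.A v) (S.B v) := by
    rw [dist_congr (edist_self _) (Seg_one hv), dist_Seg hv hh z1]
    congr 1; rw [abs_of_nonpos] <;> norm_num
  have e3 : dist (S.Seg v (1/2)) base3 = 1/2 * dist base3 (S.B v) +
      (1 - 1/2) * dist base3 (S.A v) := by
    rw [dist_comm]
    exact dist_affine (notMem_J (lt_irrefl v)) (X_ad v b3) hv.adA hv.adB hh.1 hh.2
  have d31 : dist base3 base1 = 2/3 := by rw [dist_comm]; exact dist_base13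
  have d32 : dist base3 base2 = 2/3 := by rw [dist_comm]; exact dist_base23
  refine ⟨S.Seg v (1/2), Seg_XX hv hh, ?_⟩
  rcases EP hv b1 o1 with h1 | h1 <;> rcases EP hv b2 o2 with h2 | h2
  · exact absurd (edist_zero_trans h1 (edist_zero_symm h2)) hne
  · have hL : dist (S.A v) (S.B v) = 2/3 := by rw [← dist_congr h1 h2]; exact dist_base12
    rw [← dist_congr (edist_self _) h1, hL] at eA
    rw [← dist_congr (edist_self _) h2, hL] at eB
    rw [← dist_congr (edist_self _) h1, ← dist_congr (edist_self _) h2, d31, d32] at e3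
    refine ⟨?_, ?_, ?_⟩
    · rw [eA]; norm_num
    · rw [eB]; norm_num
    · rw [e3]; norm_num
  · have hL : dist (S.A v) (S.B v) = 2/3 := by
      rw [← dist_congr h2 h1, dist_comm]; exact dist_base12
    rw [← dist_congr (edist_self _) h2, hL] at eA
    rw [← dist_congr (edist_self _) h1, hL] at eB
    rw [← dist_congr (edist_self _) h1, ← dist_congr (edist_self _) h2, d31, d32] at e3
    refine ⟨?_, ?_, ?_⟩
    · rw [eB]; norm_num
    · rw [eA]; norm_num
    · rw [e3]; norm_num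
  · exact absurd (edist_zero_trans h1 (edist_zero_symm h2)) hne

end Sys

open Sys

theorem frozen :
    ¬ (∀ (X : Type) [MetricSpace X] [CompleteSpace X],
      (∀ x y : X, ∃ γ : ℝ → X, γ 0 = x ∧ γ (dist x y) = y ∧
        ∀ s ∈ Set.Icc (0:ℝ) (dist x y), ∀ t ∈ Set.Icc (0:ℝ) (dist x y),
          dist (γ s) (γ t) = |s - t|) →
      (∀ p x y : X, x ≠ p → y ≠ p →
        ∀ γ δ : ℝ → X,
          (γ 0 = p ∧ γ (dist p x) = x ∧
            ∀ s ∈ Set.Icc (0:ℝ) (dist p x), ∀ t ∈ Set.Icc (0:ℝ) (dist p x),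
              dist (γ s) (γ t) = |s - t|) →
          (δ 0 = p ∧ δ (dist p y) = y ∧
            ∀ s ∈ Set.Icc (0:ℝ) (dist p y), ∀ t ∈ Set.Icc (0:ℝ) (dist p y),
              dist (δ s) (δ t) = |s - t|) →
          ∃ α : ℝ,
            Filter.Tendsto
              (fun q : ℝ × ℝ =>
                Real.arccos ((dist p (γ q.1) ^ 2 + dist p (δ q.2) ^ 2
                    - dist (γ q.1) (δ q.2) ^ 2) /
                  (2 * dist p (γ q.1) * dist p (δ q.2))))
              (nhdsWithin (0:ℝ) (Set.Ioi 0) ×ˢ nhdsWithin (0:ℝ) (Set.Ioi 0))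
              (nhds α) ∧
            Real.arccos ((dist p x ^ 2 + dist p y ^ 2 - dist x y ^ 2) /
              (2 * dist p x * dist p y)) ≤ α) →
      ∀ p x₁ x₂ x₃ : X, x₁ ≠ p → x₂ ≠ p → x₃ ≠ p →
        Real.arccos ((dist p x₁ ^ 2 + dist p x₂ ^ 2 - dist x₁ x₂ ^ 2) /
            (2 * dist p x₁ * dist p x₂)) +
          Real.arccos ((dist p x₂ ^ 2 + dist p x₃ ^ 2 - dist x₂ x₃ ^ 2) /
            (2 * dist p x₂ * dist p x₃)) +
          Real.arccos ((dist p x₃ ^ 2 + dist p x₁ ^ 2 - dist x₃ x₁ ^ 2) /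
            (2 * dist p x₃ * dist p x₁)) ≤ 2 * Real.pi) := by
  intro H
  obtain ⟨S⟩ := exists_Sys
  have : CompleteSpace S.XX := XX_closed.completeSpace_coe
  have hsurj : Function.Surjective (SeparationQuotient.mk : S.XX → SeparationQuotient S.XX) :=
    SeparationQuotient.surjective_mk
  choose rep hrep using hsurj
  let o : SeparationQuotient S.XX → Pt Ix := fun q => (rep q : Pt Ix)
  have ho : ∀ q, o q ∈ S.XX := fun q => (rep q).2
  have hdist : ∀ q q', dist (o q) (o q') = dist q q' := by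
    intro q q'
    conv_rhs => rw [← hrep q, ← hrep q']
    rw [SeparationQuotient.dist_mk]; rfl
  have hmk : ∀ (a : Pt Ix) (ha : a ∈ S.XX) (q : SeparationQuotient S.XX), edist (o q) a = 0 →
      (SeparationQuotient.mk (⟨a, ha⟩ : S.XX) : SeparationQuotient S.XX) = q := by
    intro a ha q h
    rw [← hrep q, SeparationQuotient.mk_eq_mk, EMetric.inseparable_iff, edist_comm]
    exact h
  -- geodesics exist
  have Geo : ∀ x y : SeparationQuotient S.XX, ∃ γ : ℝ → SeparationQuotient S.XX,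
      γ 0 = x ∧ γ (dist x y) = y ∧
        ∀ s ∈ Set.Icc (0:ℝ) (dist x y), ∀ t ∈ Set.Icc (0:ℝ) (dist x y),
          dist (γ s) (γ t) = |s - t| := by
    intro x y
    by_cases hxy : x = y
    · subst hxy
      refine ⟨fun _ => x, rfl, rfl, ?_⟩
      intro s hs t ht
      rw [dist_self] at hs ht
      have h1 : s = 0 := le_antisymm hs.2 hs.1
      have h2 : t = 0 := le_antisymm ht.2 ht.1
      rw [h1, h2]; simp
    · have hD : 0 < dist x y := dist_pos.2 hxy
      have hne : edist (o x) (o y) ≠ 0 := by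
        rw [Ne, edist_zero_iff, hdist]; exact hD.ne'
      obtain ⟨v, hv, ⟨r, hr, er⟩, ⟨r', hr', er'⟩⟩ := joined (ho x) (ho y) hne
      have hL := Sys.dist_pos hv
      have hrr : |r - r'| * dist (S.A v) (S.B v) = dist x y := by
        rw [← hdist, dist_congr er er', dist_Seg hv hr hr']
      let f : ℝ → ℝ := fun s => r + (r' - r) * (s / dist x y)
      have hclip : ∀ τ : ℝ, max 0 (min 1 τ) ∈ Icc (0:ℝ) 1 := fun τ =>
        ⟨le_max_left _ _, max_le zero_le_one (min_le_left _ _)⟩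
      have hclip' : ∀ τ ∈ Icc (0:ℝ) 1, max 0 (min 1 τ) = τ := by
        intro τ hτ
        rw [min_eq_right hτ.2, max_eq_right hτ.1]
      have hf : ∀ s ∈ Icc (0:ℝ) (dist x y), f s ∈ Icc (0:ℝ) 1 := by
        intro s hs
        have h1 : 0 ≤ s / dist x y := div_nonneg hs.1 hD.le
        have h2 : s / dist x y ≤ 1 := (div_le_one hD).2 hs.2
        have h3 : f s = (1 - s / dist x y) * r + (s / dist x y) * r' := by
          simp only [f]; ring
        rw [h3]
        constructor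
        · have := mul_nonneg (sub_nonneg.2 h2) hr.1
          have := mul_nonneg h1 hr'.1
          linarith
        · have h4 := mul_le_mul_of_nonneg_left hr.2 (sub_nonneg.2 h2)
          have h5 := mul_le_mul_of_nonneg_left hr'.2 h1
          linarith
      refine ⟨fun s => SeparationQuotient.mk ⟨S.Seg v (max 0 (min 1 (f s))), Seg_XX hv (hclip _)⟩,
        ?_, ?_, ?_⟩
      · apply hmk
        have : f 0 = r := by simp [f]
        rw [this, hclip' r hr]; exact er
      · apply hmk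
        have : f (dist x y) = r' := by simp only [f]; rw [div_self hD.ne']; ring
        rw [this, hclip' r' hr']; exact er'
      · intro s hs t ht
        rw [SeparationQuotient.dist_mk]
        change dist (S.Seg v (max 0 (min 1 (f s)))) (S.Seg v (max 0 (min 1 (f t)))) = _
        rw [hclip' _ (hf s hs), hclip' _ (hf t ht), dist_Seg hv (hf s hs) (hf t ht)]
        have h1 : f s - f t = (r' - r) * ((s - t) / dist x y) := by simp only [f]; ring
        rw [h1, abs_mul, abs_div, abs_of_pos hD, abs_sub_comm r' r]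
        calc |r - r'| * (|s - t| / dist x y) * dist (S.A v) (S.B v) =
            (|r - r'| * dist (S.A v) (S.B v)) * |s - t| / dist x y := by ring
          _ = |s - t| := by rw [hrr]; field_simp
  -- the dichotomy for hinges
  have Cases : ∀ (p x y : SeparationQuotient S.XX), x ≠ p → y ≠ p →
      ∀ γ δ : ℝ → SeparationQuotient S.XX,
      (γ 0 = p ∧ γ (dist p x) = x ∧
        ∀ s ∈ Set.Icc (0:ℝ) (dist p x), ∀ t ∈ Set.Icc (0:ℝ) (dist p x),
          dist (γ s) (γ t) = |s - t|) →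
      (δ 0 = p ∧ δ (dist p y) = y ∧
        ∀ s ∈ Set.Icc (0:ℝ) (dist p y), ∀ t ∈ Set.Icc (0:ℝ) (dist p y),
          dist (δ s) (δ t) = |s - t|) →
      (∀ s ∈ Icc (0:ℝ) (dist p x), ∀ t ∈ Icc (0:ℝ) (dist p y), dist (γ s) (δ t) = |s - t|) ∨
      (∃ C : ℝ, 0 ≤ C ∧ ∀ s ∈ Icc (0:ℝ) (dist p x), ∀ t ∈ Icc (0:ℝ) (dist p y),
        s + t - C * s * t ≤ dist (γ s) (δ t)) := by
    intro p x y hx hy γ δ hγ hδ
    have hℓ : 0 < dist p x := dist_pos.2 hx.symm
    have hℓ' : 0 < dist p y := dist_pos.2 hy.symm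
    have := hinge_cases (S := S) (γ := fun s => o (γ s)) (δ := fun s => o (δ s))
      (fun s => ho _) (fun s => ho _) hℓ hℓ'
      (fun s hs t ht => by rw [hdist]; exact hγ.2.2 s hs t ht)
      (fun s hs t ht => by rw [hdist]; exact hδ.2.2 s hs t ht)
      (by simp only [hγ.1, hδ.1]; exact edist_self _)
    simp only [hdist] at this
    exact this
  -- distances from the vertex
  have dvert : ∀ {p x : SeparationQuotient S.XX} {γ : ℝ → SeparationQuotient S.XX},
      (γ 0 = p ∧ γ (dist p x) = x ∧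
        ∀ s ∈ Set.Icc (0:ℝ) (dist p x), ∀ t ∈ Set.Icc (0:ℝ) (dist p x),
          dist (γ s) (γ t) = |s - t|) → ∀ s ∈ Icc (0:ℝ) (dist p x), dist p (γ s) = s := by
    intro p x γ hγ s hs
    have := hγ.2.2 0 ⟨le_rfl, dist_nonneg⟩ s hs
    rw [hγ.1] at this
    rw [this, zero_sub, abs_neg, abs_of_nonneg hs.1]
  -- the limit
  have Lim : ∀ (p x y : SeparationQuotient S.XX), x ≠ p → y ≠ p →
      ∀ γ δ : ℝ → SeparationQuotient S.XX,
      (γ 0 = p ∧ γ (dist p x) = x ∧
        ∀ s ∈ Set.Icc (0:ℝ) (dist p x), ∀ t ∈ Set.Icc (0:ℝ) (dist p x),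
          dist (γ s) (γ t) = |s - t|) →
      (δ 0 = p ∧ δ (dist p y) = y ∧
        ∀ s ∈ Set.Icc (0:ℝ) (dist p y), ∀ t ∈ Set.Icc (0:ℝ) (dist p y),
          dist (δ s) (δ t) = |s - t|) →
      (∃ C : ℝ, 0 ≤ C ∧ ∀ s ∈ Icc (0:ℝ) (dist p x), ∀ t ∈ Icc (0:ℝ) (dist p y),
        s + t - C * s * t ≤ dist (γ s) (δ t)) →
      Filter.Tendsto
              (fun q : ℝ × ℝ =>
                Real.arccos ((dist p (γ q.1) ^ 2 + dist p (δ q.2) ^ 2
                    - dist (γ q.1) (δ q.2) ^ 2) /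
                  (2 * dist p (γ q.1) * dist p (δ q.2))))
              (nhdsWithin (0:ℝ) (Set.Ioi 0) ×ˢ nhdsWithin (0:ℝ) (Set.Ioi 0))
              (nhds Real.pi) := by
    intro p x y hx hy γ δ hγ hδ hC
    obtain ⟨C, hC0, hC⟩ := hC
    have hℓ : 0 < dist p x := dist_pos.2 hx.symm
    have hℓ' : 0 < dist p y := dist_pos.2 hy.symm
    have hm : 0 < min (dist p x) (dist p y) := lt_min hℓ hℓ'
    have h1 := angle_lim (d := fun s t => dist (γ s) (δ t)) (C := C)
      (ℓ := min (dist p x) (dist p y)) hC0 hm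
      (fun s hs hs' t ht ht' => hC s ⟨hs.le, (hs'.le.trans (min_le_left _ _))⟩ t
        ⟨ht.le, (ht'.le.trans (min_le_right _ _))⟩)
      (fun s hs hs' t ht ht' => by
        have e1 := dvert hγ s ⟨hs.le, (hs'.le.trans (min_le_left _ _))⟩
        have e2 := dvert hδ t ⟨ht.le, (ht'.le.trans (min_le_right _ _))⟩
        calc dist (γ s) (δ t) ≤ dist p (γ s) + dist p (δ t) := dist_triangle_left _ _ _
          _ = s + t := by rw [e1, e2])
      (fun s t => dist_nonneg)
    refine h1.congr' ?_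
    filter_upwards [prod_mem_prod (Ioo_mem_nhdsGT hm) (Ioo_mem_nhdsGT hm)] with q hq
    obtain ⟨⟨a1, a2⟩, b1, b2⟩ := hq
    rw [dvert hγ q.1 ⟨a1.le, (a2.le.trans (min_le_left _ _))⟩,
      dvert hδ q.2 ⟨b1.le, (b2.le.trans (min_le_right _ _))⟩]
  -- hinges
  have Hinge : ∀ p x y : SeparationQuotient S.XX, x ≠ p → y ≠ p →
        ∀ γ δ : ℝ → SeparationQuotient S.XX,
          (γ 0 = p ∧ γ (dist p x) = x ∧
            ∀ s ∈ Set.Icc (0:ℝ) (dist p x), ∀ t ∈ Set.Icc (0:ℝ) (dist p x),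
              dist (γ s) (γ t) = |s - t|) →
          (δ 0 = p ∧ δ (dist p y) = y ∧
            ∀ s ∈ Set.Icc (0:ℝ) (dist p y), ∀ t ∈ Set.Icc (0:ℝ) (dist p y),
              dist (δ s) (δ t) = |s - t|) →
          ∃ α : ℝ,
            Filter.Tendsto
              (fun q : ℝ × ℝ =>
                Real.arccos ((dist p (γ q.1) ^ 2 + dist p (δ q.2) ^ 2
                    - dist (γ q.1) (δ q.2) ^ 2) /
                  (2 * dist p (γ q.1) * dist p (δ q.2))))
              (nhdsWithin (0:ℝ) (Set.Ioi 0) ×ˢ nhdsWithin (0:ℝ) (Set.Ioi 0))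
              (nhds α) ∧
            Real.arccos ((dist p x ^ 2 + dist p y ^ 2 - dist x y ^ 2) /
              (2 * dist p x * dist p y)) ≤ α := by
    intro p x y hx hy γ δ hγ hδ
    have hℓ : 0 < dist p x := dist_pos.2 hx.symm
    have hℓ' : 0 < dist p y := dist_pos.2 hy.symm
    have alg : ∀ a b : ℝ, 0 < a → 0 < b → (a ^ 2 + b ^ 2 - |a - b| ^ 2) / (2 * a * b) = 1 := by
      intro a b ha hb
      rw [sq_abs, div_eq_one_iff_eq (by positivity)]
      ring
    rcases Cases p x y hx hy γ δ hγ hδ with h | h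
    · refine ⟨0, ?_, ?_⟩
      · refine tendsto_const_nhds.congr' ?_
        filter_upwards [prod_mem_prod (Ioo_mem_nhdsGT hℓ) (Ioo_mem_nhdsGT hℓ')] with q hq
        obtain ⟨⟨a1, a2⟩, b1, b2⟩ := hq
        rw [dvert hγ q.1 ⟨a1.le, a2.le⟩, dvert hδ q.2 ⟨b1.le, b2.le⟩,
          h q.1 ⟨a1.le, a2.le⟩ q.2 ⟨b1.le, b2.le⟩, alg _ _ a1 b1, Real.arccos_one]
      · have := h _ ⟨hℓ.le, le_rfl⟩ _ ⟨hℓ'.le, le_rfl⟩
        rw [hγ.2.1, hδ.2.1] at this
        rw [this, alg _ _ hℓ hℓ', Real.arccos_one]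
    · exact ⟨Real.pi, Lim p x y hx hy γ δ hγ hδ h, Real.arccos_le_pi _⟩
  have Main := H (SeparationQuotient S.XX) Geo Hinge
  -- the bad configuration
  obtain ⟨p0, hp0, d1, d2, d3⟩ := config S
  obtain ⟨x1, x2, x3⟩ := base_XX (S := S)
  set p : SeparationQuotient S.XX := SeparationQuotient.mk ⟨p0, hp0⟩ with hp
  set c1 : SeparationQuotient S.XX := SeparationQuotient.mk ⟨base1, x1⟩ with hc1
  set c2 : SeparationQuotient S.XX := SeparationQuotient.mk ⟨base2, x2⟩ with hc2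
  set c3 : SeparationQuotient S.XX := SeparationQuotient.mk ⟨base3, x3⟩ with hc3
  have e1 : dist p c1 = 1/3 := by rw [hp, hc1, SeparationQuotient.dist_mk]; exact d1
  have e2 : dist p c2 = 1/3 := by rw [hp, hc2, SeparationQuotient.dist_mk]; exact d2
  have e3 : dist p c3 = 2/3 := by rw [hp, hc3, SeparationQuotient.dist_mk]; exact d3
  have e12 : dist c1 c2 = 2/3 := by rw [hc1, hc2, SeparationQuotient.dist_mk]; exact dist_base12
  have e13 : dist c1 c3 = 2/3 := by rw [hc1, hc3, SeparationQuotient.dist_mk]; exact dist_base13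
  have e23 : dist c2 c3 = 2/3 := by rw [hc2, hc3, SeparationQuotient.dist_mk]; exact dist_base23
  have n1 : c1 ≠ p := by intro h; rw [h, dist_self] at e1; norm_num at e1
  have n2 : c2 ≠ p := by intro h; rw [h, dist_self] at e2; norm_num at e2
  have n3 : c3 ≠ p := by intro h; rw [h, dist_self] at e3; norm_num at e3
  obtain ⟨γ1, g1⟩ := Geo p c1
  obtain ⟨γ2, g2⟩ := Geo p c2
  obtain ⟨γ3, g3⟩ := Geo p c3
  have l12 := Lim p c1 c2 n1 n2 γ1 γ2 g1 g2 ⟨0, le_rfl, fun s hs t ht => by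
    have h1 : dist (γ1 s) c1 = 1/3 - s := by
      have := g1.2.2 s hs (dist p c1) ⟨dist_nonneg, le_rfl⟩
      rw [g1.2.1] at this
      rw [this, abs_sub_comm, abs_of_nonneg (by linarith [hs.2]), e1]
    have h2 : dist (γ2 t) c2 = 1/3 - t := by
      have := g2.2.2 t ht (dist p c2) ⟨dist_nonneg, le_rfl⟩
      rw [g2.2.1] at this
      rw [this, abs_sub_comm, abs_of_nonneg (by linarith [ht.2]), e2]
    have h3 : dist c1 c2 ≤ dist c1 (γ1 s) + dist (γ1 s) (γ2 t) + dist (γ2 t) c2 :=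
      dist_triangle4 _ _ _ _
    rw [dist_comm c1 (γ1 s), h1, h2, e12] at h3
    linarith⟩
  have l23 := Lim p c2 c3 n2 n3 γ2 γ3 g2 g3 (by
    rcases Cases p c2 c3 n2 n3 γ2 γ3 g2 g3 with h | h
    · exfalso
      have := h (dist p c2) ⟨dist_nonneg, le_rfl⟩ (dist p c3) ⟨dist_nonneg, le_rfl⟩
      rw [g2.2.1, g3.2.1, e2, e3, e23] at this
      norm_num at this
    · exact h)
  have l31 := Lim p c3 c1 n3 n1 γ3 γ1 g3 g1 (by
    rcases Cases p c3 c1 n3 n1 γ3 γ1 g3 g1 with h | h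
    · exfalso
      have := h (dist p c3) ⟨dist_nonneg, le_rfl⟩ (dist p c1) ⟨dist_nonneg, le_rfl⟩
      rw [g1.2.1, g3.2.1, e1, e3, dist_comm, e13] at this
      norm_num at this
    · exact h)
  have hdiag : Tendsto (fun s : ℝ => (s, s)) (𝓝[>] (0:ℝ)) (𝓝[>] (0:ℝ) ×ˢ 𝓝[>] (0:ℝ)) :=
    tendsto_id.prodMk tendsto_id
  have hsum := ((l12.comp hdiag).add (l23.comp hdiag)).add (l31.comp hdiag)
  have hle := le_of_tendsto hsum (b := 2 * Real.pi) (by
    have hpos : (0:ℝ) < 1/3 := by norm_num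
    filter_upwards [Ioo_mem_nhdsGT hpos] with s hs
    have f1 := dvert g1 s ⟨hs.1.le, by rw [e1]; exact hs.2.le⟩
    have f2 := dvert g2 s ⟨hs.1.le, by rw [e2]; exact hs.2.le⟩
    have f3 := dvert g3 s ⟨hs.1.le, by rw [e3]; linarith [hs.2]⟩
    have k1 : γ1 s ≠ p := by intro h; rw [h, dist_self] at f1; linarith [hs.1]
    have k2 : γ2 s ≠ p := by intro h; rw [h, dist_self] at f2; linarith [hs.1]
    have k3 : γ3 s ≠ p := by intro h; rw [h, dist_self] at f3; linarith [hs.1]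
    exact Main p (γ1 s) (γ2 s) (γ3 s) k1 k2 k3)
  have := Real.pi_pos
  linarith

end H261WS
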