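import Pool.Agent.H261R3.WS.Lim

/-!
The final space: union of all stages, modulo null sets. Geodesics, hinges.
-/

set_option autoImplicit false
set_option maxHeartbeats 400000
open MeasureTheory Set Filter
open scoped symmDiff ENNReal Topology

namespace H261WS
namespace Sys

variable {S : Sys}

def XX (S : Sys) : Set (Pt Ix) := ⋃ w, S.X w

lemma mem_XX {x : Pt Ix} : x ∈ S.XX ↔ ∃ w, x ∈ S.X w := mem_iUnion

lemma XX_closed : IsClosed S.XX := by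
  rw [← closure_subset_iff_isClosed]
  intro x hx
  obtain ⟨u, hu, hlim⟩ := mem_closure_iff_seq_limit.1 hx
  have : ∀ n, ∃ w, u n ∈ S.X w := fun n => mem_XX.1 (hu n)
  choose f hf using this
  obtain ⟨w, hw⟩ := seq_bdd f
  exact mem_XX.2 ⟨w, (S.X_closed w).mem_of_tendsto hlim
    (Eventually.of_forall (fun n => X_mono (hw n) (hf n)))⟩

lemma common2 {x y : Pt Ix} (hx : x ∈ S.XX) (hy : y ∈ S.XX) : ∃ w, x ∈ S.X w ∧ y ∈ S.X w := by
  obtain ⟨w1, h1⟩ := mem_XX.1 hx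
  obtain ⟨w2, h2⟩ := mem_XX.1 hy
  exact ⟨max w1 w2, X_mono (le_max_left _ _) h1, X_mono (le_max_right _ _) h2⟩

lemma common3 {x y z : Pt Ix} (hx : x ∈ S.XX) (hy : y ∈ S.XX) (hz : z ∈ S.XX) :
    ∃ w, x ∈ S.X w ∧ y ∈ S.X w ∧ z ∈ S.X w := by
  obtain ⟨w1, h1, h2⟩ := common2 hx hy
  obtain ⟨w2, h3⟩ := mem_XX.1 hz
  exact ⟨max w1 w2, X_mono (le_max_left _ _) h1, X_mono (le_max_left _ _) h2,
    X_mono (le_max_right _ _) h3⟩

lemma between {x z y : Pt Ix} (hx : x ∈ S.XX) (hz : z ∈ S.XX) (hy : y ∈ S.XX) (hb : Btw x z y)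
    (h1 : edist z x ≠ 0) (h2 : edist z y ≠ 0) :
    ∃ v, S.Act v ∧ S.On v x ∧ S.On v z ∧ S.On v y := by
  obtain ⟨w, hx, hz, hy⟩ := common3 hx hz hy
  obtain ⟨v, _, h⟩ := HS_all (S := S) w x z y hx hz hy hb h1 h2
  exact ⟨v, h⟩

lemma joined {x y : Pt Ix} (hx : x ∈ S.XX) (hy : y ∈ S.XX) (hne : edist x y ≠ 0) :
    ∃ v, S.Act v ∧ S.On v x ∧ S.On v y := by
  obtain ⟨w, hxw, hyw⟩ := common2 hx hy
  obtain ⟨w', hw', hA, hB⟩ := S.hbk w x y
  by_cases h : S.Act w'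
  · exact ⟨w', h, hA ▸ On_A h, hB ▸ On_B h⟩
  · by_contra hcon
    apply h
    have hxw' : S.A w' ∈ XA S.A S.B S.Act w' := by rw [hA]; exact X_mono hw' hxw
    have hyw' : S.B w' ∈ XA S.A S.B S.Act w' := by rw [hB]; exact X_mono hw' hyw
    rw [S.hAct w']
    refine ⟨hxw', hyw', by rw [hA, hB]; exact hne, fun z hz hb => ?_⟩
    by_contra hz'
    push Not at hz'
    rw [hA, hB] at hb hz'
    obtain ⟨v, hv, o1, o2, o3⟩ := between hx (mem_XX.2 ⟨w', hz⟩) hy hb hz'.1 hz'.2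
    exact hcon ⟨v, hv, o1, o3⟩

lemma Seg_XX {v : W} (h : S.Act v) {s : ℝ} (hs : s ∈ Icc (0:ℝ) 1) : S.Seg v s ∈ S.XX := by
  obtain ⟨w', hw', hA, hB⟩ := S.hbk v (S.A v) (S.A v)
  rcases hw'.lt_or_eq with hlt | heq
  · exact mem_XX.2 ⟨w', Seg_mem h hlt hs⟩
  · subst heq
    exact absurd (by rw [hB, hA]; exact edist_self _) h.ne

lemma geo_on {γ : ℝ → Pt Ix} (hγ : ∀ s, γ s ∈ S.XX) {ℓ : ℝ} (hℓ : 0 < ℓ)
    (hiso : ∀ s ∈ Icc (0:ℝ) ℓ, ∀ t ∈ Icc (0:ℝ) ℓ, dist (γ s) (γ t) = |s - t|) :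
    ∃ v, S.Act v ∧ ∃ r ε : ℝ, (ε = 1 ∨ ε = -1) ∧ ∀ s ∈ Icc (0:ℝ) ℓ,
      r + ε * (s / dist (S.A v) (S.B v)) ∈ Icc (0:ℝ) 1 ∧
        edist (γ s) (S.Seg v (r + ε * (s / dist (S.A v) (S.B v)))) = 0 := by
  have m0 : (0:ℝ) ∈ Icc (0:ℝ) ℓ := ⟨le_rfl, hℓ.le⟩
  have mℓ : ℓ ∈ Icc (0:ℝ) ℓ := ⟨hℓ.le, le_rfl⟩
  have key : ∀ s, 0 < s → s < ℓ → ∃ v, S.Act v ∧ S.On v (γ 0) ∧ S.On v (γ s) ∧ S.On v (γ ℓ) := by
    intro s h0 h1
    have ms : s ∈ Icc (0:ℝ) ℓ := ⟨h0.le, h1.le⟩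
    apply between (hγ 0) (hγ s) (hγ ℓ)
    · apply btw_of_dist
      rw [hiso 0 m0 s ms, hiso s ms ℓ mℓ, hiso 0 m0 ℓ mℓ, zero_sub, zero_sub, abs_neg, abs_neg,
        abs_of_pos h0, abs_of_pos hℓ, abs_sub_comm, abs_of_pos (by linarith)]
      ring
    · rw [Ne, edist_zero_iff, hiso s ms 0 m0, sub_zero, abs_of_pos h0]; exact h0.ne'
    · rw [Ne, edist_zero_iff, hiso s ms ℓ mℓ, abs_sub_comm, abs_of_pos (by linarith)]
      linarith
  obtain ⟨v, hv, ⟨r, hr, er⟩, -, ⟨r', hr', er'⟩⟩ := key (ℓ / 2) (by linarith) (by linarith)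
  have hL := dist_pos hv
  set L := dist (S.A v) (S.B v) with hLdef
  have hne : edist (γ 0) (γ ℓ) ≠ 0 := by
    rw [Ne, edist_zero_iff, hiso 0 m0 ℓ mℓ, zero_sub, abs_neg, abs_of_pos hℓ]; exact hℓ.ne'
  have hon : ∀ s ∈ Icc (0:ℝ) ℓ, ∃ τ ∈ Icc (0:ℝ) 1, edist (γ s) (S.Seg v τ) = 0 := by
    intro s hs
    rcases hs.1.lt_or_eq with h0 | h0
    · rcases hs.2.lt_or_eq with h1 | h1
      · obtain ⟨v', hv', o1, o2, o3⟩ := key s h0 h1
        have := K hv' hv hne o1 ⟨r, hr, er⟩ o3 ⟨r', hr', er'⟩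
        subst this
        exact o2
      · subst h1; exact ⟨r', hr', er'⟩
    · subst h0; exact ⟨r, hr, er⟩
  have hrr : |r - r'| * L = ℓ := by
    have := hiso 0 m0 ℓ mℓ
    rw [dist_congr er er', dist_Seg hv hr hr', zero_sub, abs_neg, abs_of_pos hℓ] at this
    exact this
  have hτ : ∀ s ∈ Icc (0:ℝ) ℓ, ∀ τ ∈ Icc (0:ℝ) 1, edist (γ s) (S.Seg v τ) = 0 →
      |r - τ| * L = s ∧ |τ - r'| * L = ℓ - s := by
    intro s hs τ hτ1 hτ2
    have h1 := hiso 0 m0 s hs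
    rw [dist_congr er hτ2, dist_Seg hv hr hτ1, zero_sub, abs_neg, abs_of_nonneg hs.1] at h1
    have h2 := hiso s hs ℓ mℓ
    have e5 : |s - ℓ| = ℓ - s := by rw [abs_sub_comm, abs_of_nonneg (by linarith [hs.2])]
    rw [dist_congr hτ2 er', dist_Seg hv hτ1 hr', e5] at h2
    exact ⟨h1, h2⟩
  rcases lt_or_ge r r' with hlt | hge
  · refine ⟨v, hv, r, 1, Or.inl rfl, fun s hs => ?_⟩
    obtain ⟨τ, hτ1, hτ2⟩ := hon s hs
    obtain ⟨e1, e2⟩ := hτ s hs τ hτ1 hτ2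
    rw [abs_sub_comm, abs_of_pos (by linarith : 0 < r' - r)] at hrr
    have hval : τ = r + 1 * (s / L) := by
      have hs' : r' * L = r * L + ℓ := by linarith
      rcases abs_cases (r - τ) with ⟨ha, hb⟩ | ⟨ha, hb⟩ <;>
        rcases abs_cases (τ - r') with ⟨hc, hd⟩ | ⟨hc, hd⟩ <;> rw [ha] at e1 <;> rw [hc] at e2
      · exfalso; linarith
      · -- r ≥ τ : (r-τ)L = s, (r'-τ)L = ℓ - s  -> s = 0
        have : s = 0 := by nlinarith
        subst this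
        have : r - τ = 0 := by
          rcases mul_eq_zero.1 e1 with h | h
          · exact h
          · exact absurd h hL.ne'
        simp; linarith
      · -- τ>r, τ ≥ r'
        field_simp
        nlinarith
      · field_simp
        nlinarith
    rw [← hval]
    exact ⟨hτ1, hτ2⟩
  · have hlt : r' < r := by
      rcases hge.lt_or_eq with h | h
      · exact h
      · rw [h] at hrr; simp at hrr; linarith
    refine ⟨v, hv, r, -1, Or.inr rfl, fun s hs => ?_⟩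
    obtain ⟨τ, hτ1, hτ2⟩ := hon s hs
    obtain ⟨e1, e2⟩ := hτ s hs τ hτ1 hτ2
    rw [abs_of_pos (by linarith : 0 < r - r')] at hrr
    have hval : τ = r + -1 * (s / L) := by
      rcases abs_cases (r - τ) with ⟨ha, hb⟩ | ⟨ha, hb⟩ <;>
        rcases abs_cases (τ - r') with ⟨hc, hd⟩ | ⟨hc, hd⟩ <;> rw [ha] at e1 <;> rw [hc] at e2
      · field_simp
        nlinarith
      · field_simp
        nlinarith
      · have : s = 0 := by nlinarith
        subst this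
        have : -(r - τ) = 0 := by
          rcases mul_eq_zero.1 e1 with h | h
          · exact h
          · exact absurd h hL.ne'
        simp; linarith
      · exfalso; linarith
    rw [← hval]
    exact ⟨hτ1, hτ2⟩

/-- estimate when the second segment is the younger one -/
lemma est {v1 v2 : W} (h1 : S.Act v1) (h2 : S.Act v2) (hlt : v1 < v2) {p u q : Pt Ix}
    (hp1 : S.On v1 p) (hp2 : S.On v2 p) (hu : S.On v1 u) (hq : S.On v2 q) :
    dist p u + dist p q - 2 / dist (S.A v2) (S.B v2) * dist p u * dist p q ≤ dist u q := by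
  have hL := dist_pos h2
  obtain ⟨τ, hτ, eτ⟩ := hq
  have hadu := X_ad v2 (On_mem h1 hlt hu)
  have haff : dist u q = τ * dist u (S.B v2) + (1 - τ) * dist u (S.A v2) := by
    rw [dist_congr (edist_self u) eτ]
    exact dist_affine (notMem_J (lt_irrefl v2)) hadu h2.adA h2.adB hτ.1 hτ.2
  have htri := dist_triangle_left (S.A v2) (S.B v2) u
  rcases EP h2 (On_mem h1 hlt hp1) hp2 with hp | hp
  · have e1 : dist p u = dist u (S.A v2) := by rw [dist_congr hp (edist_self u), dist_comm]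
    have e2 : dist p q = τ * dist (S.A v2) (S.B v2) := by
      rw [dist_congr hp eτ, dist_congr (Seg_zero h2) (edist_self _), dist_Seg h2 ⟨le_rfl, zero_le_one⟩ hτ,
        zero_sub, abs_neg, abs_of_nonneg hτ.1]
    rw [haff, e1, e2]
    have e3 : 2 / dist (S.A v2) (S.B v2) * dist u (S.A v2) * (τ * dist (S.A v2) (S.B v2)) =
        2 * τ * dist u (S.A v2) := by field_simp
    rw [e3]
    nlinarith [hτ.1, mul_le_mul_of_nonneg_left htri hτ.1]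
  · have e1 : dist p u = dist u (S.B v2) := by rw [dist_congr hp (edist_self u), dist_comm]
    have e2 : dist p q = (1 - τ) * dist (S.A v2) (S.B v2) := by
      rw [dist_congr hp eτ, dist_congr (Seg_one h2) (edist_self _), dist_Seg h2 ⟨zero_le_one, le_rfl⟩ hτ,
        abs_of_nonneg (by linarith [hτ.2])]
    rw [haff, e1, e2]
    have e3 : 2 / dist (S.A v2) (S.B v2) * dist u (S.B v2) * ((1 - τ) * dist (S.A v2) (S.B v2)) =
        2 * (1 - τ) * dist u (S.B v2) := by field_simp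
    rw [e3]
    have h3 : 0 ≤ 1 - τ := by linarith [hτ.2]
    nlinarith [mul_le_mul_of_nonneg_left htri h3]

lemma hinge_cases {γ δ : ℝ → Pt Ix} (hγ : ∀ s, γ s ∈ S.XX) (hδ : ∀ s, δ s ∈ S.XX) {ℓ ℓ' : ℝ}
    (hℓ : 0 < ℓ) (hℓ' : 0 < ℓ')
    (hiso : ∀ s ∈ Icc (0:ℝ) ℓ, ∀ t ∈ Icc (0:ℝ) ℓ, dist (γ s) (γ t) = |s - t|)
    (hiso' : ∀ s ∈ Icc (0:ℝ) ℓ', ∀ t ∈ Icc (0:ℝ) ℓ', dist (δ s) (δ t) = |s - t|)
    (h0 : edist (γ 0) (δ 0) = 0) :
    (∀ s ∈ Icc (0:ℝ) ℓ, ∀ t ∈ Icc (0:ℝ) ℓ', dist (γ s) (δ t) = |s - t|) ∨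
    (∃ C : ℝ, 0 ≤ C ∧ ∀ s ∈ Icc (0:ℝ) ℓ, ∀ t ∈ Icc (0:ℝ) ℓ', s + t - C * s * t ≤ dist (γ s) (δ t)) := by
  have m0 : (0:ℝ) ∈ Icc (0:ℝ) ℓ := ⟨le_rfl, hℓ.le⟩
  have m0' : (0:ℝ) ∈ Icc (0:ℝ) ℓ' := ⟨le_rfl, hℓ'.le⟩
  obtain ⟨v, hv, r, ε, hε, h1⟩ := geo_on hγ hℓ hiso
  obtain ⟨v', hv', r', ε', hε', h1'⟩ := geo_on hδ hℓ' hiso'
  have hon : ∀ s ∈ Icc (0:ℝ) ℓ, S.On v (γ s) := fun s hs => ⟨_, (h1 s hs).1, (h1 s hs).2⟩
  have hon' : ∀ s ∈ Icc (0:ℝ) ℓ', S.On v' (δ s) := fun s hs => ⟨_, (h1' s hs).1, (h1' s hs).2⟩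
  have d1 : ∀ s ∈ Icc (0:ℝ) ℓ, dist (γ 0) (γ s) = s := fun s hs => by
    rw [hiso 0 m0 s hs, zero_sub, abs_neg, abs_of_nonneg hs.1]
  have d1' : ∀ s ∈ Icc (0:ℝ) ℓ', dist (δ 0) (δ s) = s := fun s hs => by
    rw [hiso' 0 m0' s hs, zero_sub, abs_neg, abs_of_nonneg hs.1]
  rcases lt_trichotomy v v' with hlt | heq | hlt
  · right
    refine ⟨2 / dist (S.A v') (S.B v'), by positivity, fun s hs t ht => ?_⟩
    have := est hv hv' hlt (hon 0 m0) ((hon' 0 m0').congr (edist_zero_symm h0)) (hon s hs) (hon' t ht)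
    rw [d1 s hs, dist_congr h0 (edist_self _), d1' t ht] at this
    exact this
  · subst heq
    have hL := dist_pos hv
    have hr : r = r' := by
      have e1 := h1 0 m0
      have e2 := h1' 0 m0'
      simp only [zero_div, mul_zero, add_zero] at e1 e2
      have e3 : dist (S.Seg v r) (S.Seg v r') = 0 := by
        rw [← edist_zero_iff]
        exact edist_zero_trans (edist_zero_symm e1.2) (edist_zero_trans h0 e2.2)
      rw [dist_Seg hv e1.1 e2.1] at e3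
      rcases mul_eq_zero.1 e3 with h | h
      · exact sub_eq_zero.1 (abs_eq_zero.1 h)
      · exact absurd h hL.ne'
    subst hr
    have hd : ∀ s ∈ Icc (0:ℝ) ℓ, ∀ t ∈ Icc (0:ℝ) ℓ', dist (γ s) (δ t) = |ε * s - ε' * t| := by
      intro s hs t ht
      rw [dist_congr (h1 s hs).2 (h1' t ht).2, dist_Seg hv (h1 s hs).1 (h1' t ht).1]
      have : r + ε * (s / dist (S.A v) (S.B v)) - (r + ε' * (t / dist (S.A v) (S.B v))) =
          (ε * s - ε' * t) / dist (S.A v) (S.B v) := by field_simp; ring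
      rw [this, abs_div, abs_of_pos hL, div_mul_cancel₀ _ hL.ne']
    rcases hε with rfl | rfl <;> rcases hε' with rfl | rfl
    · left
      intro s hs t ht
      rw [hd s hs t ht, one_mul, one_mul]
    · right
      refine ⟨0, le_rfl, fun s hs t ht => ?_⟩
      rw [hd s hs t ht, abs_of_nonneg (by linarith [hs.1, ht.1])]
      linarith
    · right
      refine ⟨0, le_rfl, fun s hs t ht => ?_⟩
      rw [hd s hs t ht, abs_of_nonpos (by linarith [hs.1, ht.1])]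
      linarith
    · left
      intro s hs t ht
      rw [hd s hs t ht, ← abs_neg]
      congr 1; ring
  · right
    refine ⟨2 / dist (S.A v) (S.B v), by positivity, fun s hs t ht => ?_⟩
    have := est hv' hv hlt (hon' 0 m0') ((hon 0 m0).congr h0) (hon' t ht) (hon s hs)
    rw [d1' t ht, dist_congr (edist_zero_symm h0) (edist_self _), d1 s hs] at this
    rw [dist_comm (γ s)]
    linarith

end Sys

/-- the angle limit -/
lemma angle_lim {d : ℝ → ℝ → ℝ} {C ℓ : ℝ} (hC : 0 ≤ C) (hℓ : 0 < ℓ)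
    (h1 : ∀ s, 0 < s → s < ℓ → ∀ t, 0 < t → t < ℓ → s + t - C * s * t ≤ d s t)
    (h2 : ∀ s, 0 < s → s < ℓ → ∀ t, 0 < t → t < ℓ → d s t ≤ s + t)
    (h3 : ∀ s t, 0 ≤ d s t) :
    Tendsto (fun q : ℝ × ℝ => Real.arccos ((q.1 ^ 2 + q.2 ^ 2 - d q.1 q.2 ^ 2) / (2 * q.1 * q.2)))
      (𝓝[>] (0:ℝ) ×ˢ 𝓝[>] (0:ℝ)) (𝓝 Real.pi) := by
  rw [← Real.arccos_neg_one]
  apply Real.continuous_arccos.continuousAt.tendsto.comp
  have hm : (0:ℝ) < min ℓ (1 / (C + 1)) := lt_min hℓ (by positivity)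
  have hev : ∀ᶠ q : ℝ × ℝ in 𝓝[>] (0:ℝ) ×ˢ 𝓝[>] (0:ℝ),
      q.1 ∈ Ioo 0 (min ℓ (1 / (C + 1))) ∧ q.2 ∈ Ioo 0 (min ℓ (1 / (C + 1))) :=
    prod_mem_prod (Ioo_mem_nhdsGT hm) (Ioo_mem_nhdsGT hm)
  have hup : Tendsto (fun q : ℝ × ℝ => -1 + C * (q.1 + q.2)) (𝓝[>] (0:ℝ) ×ˢ 𝓝[>] (0:ℝ))
      (𝓝 (-1)) := by
    have hc : Tendsto (fun q : ℝ × ℝ => -1 + C * (q.1 + q.2)) (𝓝 ((0:ℝ), (0:ℝ)))
        (𝓝 (-1 + C * (0 + 0))) := by
      apply Continuous.tendsto' (by fun_prop)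
      simp
    rw [add_zero, mul_zero, add_zero, nhds_prod_eq] at hc
    exact hc.mono_left (Filter.prod_mono nhdsWithin_le_nhds nhdsWithin_le_nhds)
  refine tendsto_of_tendsto_of_tendsto_of_le_of_le' tendsto_const_nhds hup ?_ ?_
  · filter_upwards [hev] with q hq
    obtain ⟨⟨a1, a2⟩, b1, b2⟩ := hq
    have a3 := a2.trans_le (min_le_left _ _)
    have b3 := b2.trans_le (min_le_left _ _)
    have hd := h2 _ a1 a3 _ b1 b3
    have hd0 := h3 q.1 q.2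
    rw [le_div_iff₀ (by positivity)]
    nlinarith
  · filter_upwards [hev] with q hq
    obtain ⟨⟨a1, a2⟩, b1, b2⟩ := hq
    have a3 := a2.trans_le (min_le_left _ _)
    have b3 := b2.trans_le (min_le_left _ _)
    have a4 := a2.trans_le (min_le_right _ _)
    have hd := h1 _ a1 a3 _ b1 b3
    have hCs : C * q.1 ≤ 1 := by
      rw [lt_div_iff₀ (by positivity)] at a4
      nlinarith
    have hpos : 0 ≤ q.1 + q.2 - C * q.1 * q.2 := by nlinarith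
    have hsq : (q.1 + q.2 - C * q.1 * q.2) ^ 2 ≤ d q.1 q.2 ^ 2 := pow_le_pow_left₀ hpos hd 2
    rw [div_le_iff₀ (by positivity)]
    nlinarith [mul_nonneg (mul_nonneg hC a1.le) b1.le, sq_nonneg (C * q.1 * q.2)]

end H261WS
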