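import Pool.Agent.H261R3.WS.Meas2

/-!
The well-ordered index set (the initial ordinal of the continuum) and the bookkeeping function.
-/

set_option autoImplicit false
set_option maxHeartbeats 400000
open MeasureTheory Set Cardinal
open scoped Cardinal

namespace H261WS

/-- a well-order of type the initial ordinal of the continuum -/
abbrev W : Type := (Cardinal.continuum.{0}).ord.ToType

/-- coordinates: one for each `w : W`, and one for the base points -/
abbrev Ix : Type := Option W

lemma mk_W : #W = 𝔠 := mk_ord_toType _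

lemma mk_Iio_W (w : W) : #(Iio w) < 𝔠 := mk_Iio_toType_ord_lt w

lemma mk_borel : #{A : Set ℝ | MeasurableSet A} ≤ 𝔠 := by
  have h := MeasurableSpace.cardinal_measurableSet_le_continuum (s := range (Iio : ℝ → Set ℝ))
    (by refine mk_range_le.trans ?_; rw [mk_real])
  rw [← borel_eq_generateFrom_Iio, ← (BorelSpace.measurable_eq (α := ℝ))] at h
  exact h

lemma mk_Ix : #Ix ≤ 𝔠 := by
  rw [mk_option, mk_W]
  exact (add_eq_left aleph0_le_continuum (by exact_mod_cast (nat_lt_continuum 1).le)).le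

lemma mk_Pt : #(Pt Ix) ≤ 𝔠 := by
  have hs : #{B : Set (Ix → ℝ) | ∃ (i : Ix) (A : Set ℝ), MeasurableSet A ∧
      Function.eval i ⁻¹' A = B} ≤ 𝔠 := by
    have : {B : Set (Ix → ℝ) | ∃ (i : Ix) (A : Set ℝ), MeasurableSet A ∧
      Function.eval i ⁻¹' A = B} =
      range (fun q : Ix × {A : Set ℝ | MeasurableSet A} => Function.eval q.1 ⁻¹' q.2.1) := by
      ext B
      simp only [Set.mem_ofPred_eq, Set.mem_range, Prod.exists, Subtype.exists]
      constructor
      · rintro ⟨i, A, hA, rfl⟩; exact ⟨i, A, hA, rfl⟩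
      · rintro ⟨i, A, hA, rfl⟩; exact ⟨i, A, hA, rfl⟩
    rw [this]
    refine mk_range_le.trans ?_
    rw [mk_prod, lift_id, lift_id]
    refine (mul_le_mul' mk_Ix mk_borel).trans ?_
    rw [continuum_mul_self]
  have h := MeasurableSpace.cardinal_measurableSet_le_continuum hs
  rw [← MeasurableSpace.pi_eq_generateFrom_projections] at h
  exact h

lemma exists_bk : ∃ b : W → Pt Ix × Pt Ix, ∀ (w : W) (q : Pt Ix × Pt Ix), ∃ w', w ≤ w' ∧ b w' = q := by
  have hW : Infinite W := by
    rw [← aleph0_le_mk_iff, mk_W]; exact aleph0_le_continuum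
  have hc : #W = #(W × (Pt Ix × Pt Ix)) := by
    apply le_antisymm
    · let a : Pt Ix × Pt Ix := (⟨∅, MeasurableSet.empty⟩, ⟨∅, MeasurableSet.empty⟩)
      exact mk_le_of_injective (f := fun w : W => (w, a)) (fun x y h => (Prod.mk.inj h).1)
    · simp only [mk_prod, lift_id]
      rw [mk_W]
      refine (mul_le_mul' le_rfl (mul_le_mul' mk_Pt mk_Pt)).trans ?_
      rw [continuum_mul_self, continuum_mul_self]
  obtain ⟨e⟩ := Cardinal.eq.1 hc
  refine ⟨fun w => (e w).2, fun w q => ?_⟩
  by_contra hcon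
  push Not at hcon
  have hlt : ∀ v : W, e.symm (v, q) < w := by
    intro v
    by_contra h
    exact hcon _ (not_lt.1 h) (by simp)
  have hinj : Function.Injective (fun v : W => (⟨e.symm (v, q), hlt v⟩ : Iio w)) := by
    intro v v' h
    have h1 := congrArg Subtype.val h
    exact (Prod.mk.inj (e.symm.injective h1)).1
  have h1 := mk_le_of_injective hinj
  rw [mk_W] at h1
  exact absurd (mk_Iio_W w) (not_lt.2 h1)

lemma seq_bdd (f : ℕ → W) : ∃ w, ∀ n, f n ≤ w := by
  by_contra hcon
  push Not at hcon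
  have hU : (⋃ n, Iio (f n)) = (univ : Set W) := by
    rw [eq_univ_iff_forall]
    intro w
    obtain ⟨n, hn⟩ := hcon w
    exact mem_iUnion.2 ⟨n, hn⟩
  have h1 : #W ≤ Cardinal.sum (fun n => #(Iio (f n))) := by
    rw [← mk_univ, ← hU]
    exact mk_iUnion_le_sum_mk
  have h2 : Cardinal.sum (fun n => #(Iio (f n))) < Cardinal.prod (fun _ : ℕ => 𝔠) :=
    sum_lt_prod _ _ (fun n => mk_Iio_W (f n))
  rw [prod_const', mk_nat, continuum_power_aleph0] at h2
  rw [mk_W] at h1
  exact absurd (h1.trans_lt h2) (lt_irrefl _)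

end H261WS
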