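import Pool.Agent.H261R3.WS.Struct

/-!
Limit stages of the structure theorem, and the structure theorem.
-/

set_option autoImplicit false
set_option maxHeartbeats 400000
open MeasureTheory Set Filter
open scoped symmDiff ENNReal Topology

namespace H261WS

lemma meas_edist_const {ι : Type} (K : Set ι) (A B : Pt ι) :
    Measurable fun ω' => edist (sec K ω' A) B := by
  have : (fun ω' => edist (sec K ω' A) B) = fun ω' =>
      P ι ((fun ω => (ω, ω')) ⁻¹' ({q : (ι → ℝ) × (ι → ℝ) | glue K q.1 q.2 ∈ (A : Set (ι → ℝ))} ∆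
        {q | q.1 ∈ (B : Set (ι → ℝ))})) := rfl
  rw [this]
  exact measurable_measure_prodMk_right
    (((measurable_glue K) A.2).symmDiff (measurable_fst B.2))

lemma glue_glue {ι : Type} {K K' : Set ι} (h : K ⊆ K') (ω ω2 ω3 : ι → ℝ) :
    glue K' (glue K ω ω2) ω3 = glue K ω (glue K' ω2 ω3) := by
  funext i
  by_cases h1 : i ∈ K
  · rw [glue_of_mem (h h1), glue_of_mem h1, glue_of_mem h1]
  · by_cases h2 : i ∈ K'
    · rw [glue_of_mem h2, glue_of_notMem h1, glue_of_notMem h1, glue_of_mem h2]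
    · rw [glue_of_notMem h2, glue_of_notMem h1, glue_of_notMem h2]

lemma sec_sec {ι : Type} {K K' : Set ι} (h : K ⊆ K') (ω2 ω3 : ι → ℝ) (A : Pt ι) :
    sec K ω2 (sec K' ω3 A) = sec K (glue K' ω2 ω3) A := by
  apply SetLike.ext
  intro ω
  rw [mem_sec, mem_sec, mem_sec, glue_glue h]

lemma lint_glue {ι : Type} (K : Set ι) {f : (ι → ℝ) → ℝ≥0∞} (hf : Measurable f) :
    ∫⁻ ω, f ω ∂(P ι) = ∫⁻ ω3, ∫⁻ ω2, f (glue K ω2 ω3) ∂(P ι) ∂(P ι) := by
  have h1 := (mp_glue K).lintegral_comp hf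
  have h2 := lintegral_prod_symm (μ := P ι) (ν := P ι) (fun q => f (glue K q.1 q.2))
    (hf.comp (measurable_glue K)).aemeasurable
  rw [← h1, h2]

lemma min0 (c : ℝ≥0∞) : min 0 c = 0 := by simp
lemma min0' (c : ℝ≥0∞) : min c 0 = 0 := by simp

namespace Sys

variable {S : Sys}

/-- the strictness function of a triple at stage `u` -/
noncomputable def hf (u : W) (x z y : Pt Ix) (ω' : Ix → ℝ) : ℝ≥0∞ :=
  min (edist (sec (J u) ω' x) (sec (J u) ω' z)) (edist (sec (J u) ω' z) (sec (J u) ω' y))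

lemma meas_hf (u : W) (x z y : Pt Ix) : Measurable (hf u x z y) :=
  (meas_edist (J u) x z).min (meas_edist (J u) z y)

lemma hf_le_one (u : W) (x z y : Pt Ix) (ω' : Ix → ℝ) : hf u x z y ω' ≤ 1 :=
  (min_le_left _ _).trans (edist_le_one _ _)

lemma Dich {u u' : W} (H : HS S u') {x z y : Pt Ix} (hx : x ∈ S.X u') (hz : z ∈ S.X u')
    (hy : y ∈ S.X u') (hb : Btw x z y) :
    ∀ᵐ ω' ∂(P Ix), hf u x z y ω' = 0 ∨ (edist (sec (J u) ω' x) x = 0 ∧
      edist (sec (J u) ω' z) z = 0 ∧ edist (sec (J u) ω' y) y = 0) := by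
  by_cases h1 : edist z x = 0
  · filter_upwards [sec_congr_ae (J u) h1] with ω' hω
    left
    unfold hf
    rw [edist_comm, hω, min0]
  by_cases h2 : edist z y = 0
  · filter_upwards [sec_congr_ae (J u) h2] with ω' hω
    left
    unfold hf
    rw [hω, min0']
  obtain ⟨v, hlt, hact, o1, o2, o3⟩ := H x z y hx hz hy hb h1 h2
  by_cases hvu : v < u
  · filter_upwards [(X_ad u (On_mem hact hvu o1)).ae, (X_ad u (On_mem hact hvu o2)).ae,
      (X_ad u (On_mem hact hvu o3)).ae] with ω' e1 e2 e3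
    exact Or.inr ⟨e1, e2, e3⟩
  · filter_upwards [On_sec hvu o1, On_sec hvu o2, On_sec hvu o3, btw_sec (J u) hb]
      with ω' e1 e2 e3 hb'
    left
    have hzx : ∀ c : Pt Ix, edist (sec (J u) ω' x) c = 0 → edist (sec (J u) ω' z) c = 0 →
        hf u x z y ω' = 0 := by
      intro c h1 h2
      unfold hf
      rw [edist_zero_trans h1 (edist_zero_symm h2), min0]
    have hzy : ∀ c : Pt Ix, edist (sec (J u) ω' y) c = 0 → edist (sec (J u) ω' z) c = 0 →
        hf u x z y ω' = 0 := by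
      intro c h1 h2
      unfold hf
      rw [edist_zero_trans h2 (edist_zero_symm h1), min0']
    have hxy : ∀ c : Pt Ix, edist (sec (J u) ω' y) c = 0 → edist (sec (J u) ω' x) c = 0 →
        hf u x z y ω' = 0 := by
      intro c h1 h2
      have := hb'.eq_of_eq (edist_zero_trans h2 (edist_zero_symm h1))
      unfold hf
      rw [edist_zero_symm this, min0]
    rcases e1 with e1 | e1 <;> rcases e2 with e2 | e2 <;> rcases e3 with e3 | e3
    · exact hzx _ e1 e2
    · exact hzx _ e1 e2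
    · exact hxy _ e3 e1
    · exact hzy _ e3 e2
    · exact hzy _ e3 e2
    · exact hxy _ e3 e1
    · exact hzx _ e1 e2
    · exact hzx _ e1 e2

/-- approximation from earlier stages at a limit stage -/
lemma approx {w : W} (hlim : ∀ u < w, ∃ u', u < u' ∧ u' < w) {x : Pt Ix} (hx : x ∈ S.X w)
    {ε : ℝ≥0∞} (hε : 0 < ε) (u : W) (hu : u < w) :
    ∃ u', u ≤ u' ∧ u' < w ∧ ∃ x' ∈ S.X u', edist x x' < ε := by
  obtain ⟨x', hx', hd⟩ := EMetric.mem_closure_iff.1 hx ε hε
  rcases hx' with h | ⟨v, h1, h2, s, hs, rfl⟩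
  · exact ⟨u, le_rfl, hu, x', subset_closure (Or.inl h), hd⟩
  · obtain ⟨u', h3, h4⟩ := hlim (max u v) (max_lt hu h1)
    exact ⟨u', ((le_max_left _ _).trans_lt h3).le, h4, _,
      Seg_mem h2 ((le_max_right _ _).trans_lt h3) hs, hd⟩

lemma approx3 {w : W} (hlim : ∀ u < w, ∃ u', u < u' ∧ u' < w) {x z y : Pt Ix} (hx : x ∈ S.X w)
    (hz : z ∈ S.X w) (hy : y ∈ S.X w) {ε : ℝ≥0∞} (hε : 0 < ε) (u : W) (hu : u < w) :
    ∃ u', u ≤ u' ∧ u' < w ∧ ∃ x' ∈ S.X u', ∃ z' ∈ S.X u', ∃ y' ∈ S.X u',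
      edist x x' < ε ∧ edist z z' < ε ∧ edist y y' < ε := by
  obtain ⟨u1, h1, h1', x', hx', ex⟩ := approx hlim hx hε u hu
  obtain ⟨u2, h2, h2', z', hz', ez⟩ := approx hlim hz hε u1 h1'
  obtain ⟨u3, h3, h3', y', hy', ey⟩ := approx hlim hy hε u2 h2'
  exact ⟨u3, h1.trans (h2.trans h3), h3', x', X_mono (h2.trans h3) hx', z', X_mono h3 hz', y', hy',
    ex, ez, ey⟩

/-- the key estimate -/
lemma C2 {u u' w : W} (huu : u ≤ u') (H : HS S u') {x z y p : Pt Ix}
    (hx : x ∈ S.X w) (hz : z ∈ S.X w) (hy : y ∈ S.X w) (hb : Btw x z y)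
    (hp : p = x ∨ p = z ∨ p = y) {p' : Pt Ix} (hp' : p' ∈ S.X u') :
    ∫⁻ ω', hf u x z y ω' * edist (sec (J u) ω' p) p' ∂(P Ix) ≤ edist p p' := by
  have hmm : Measurable fun ω' => hf u x z y ω' * edist (sec (J u) ω' p) p' :=
    (meas_hf u x z y).mul (meas_edist_const (J u) p p')
  rw [lint_glue (J u') hmm, ← lint_edist (J u') p p']
  apply lintegral_mono_ae
  filter_upwards [X_sec u' w hx, X_sec u' w hz, X_sec u' w hy, btw_sec (J u') hb,
    (X_ad u' hp').ae] with ω3 h1 h2 h3 h4 h5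
  have hJ : J u ⊆ J u' := J_mono huu
  calc ∫⁻ ω2, hf u x z y (glue (J u') ω2 ω3) * edist (sec (J u) (glue (J u') ω2 ω3) p) p' ∂(P Ix)
      ≤ ∫⁻ _, edist (sec (J u') ω3 p) p' ∂(P Ix) := by
        apply lintegral_mono_ae
        filter_upwards [Dich (u := u) H h1 h2 h3 h4] with ω2 hd
        have he : hf u (sec (J u') ω3 x) (sec (J u') ω3 z) (sec (J u') ω3 y) ω2 =
            hf u x z y (glue (J u') ω2 ω3) := by
          unfold hf
          rw [sec_sec hJ, sec_sec hJ, sec_sec hJ]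
        rw [he] at hd
        rcases hd with hd | hd
        · rw [hd, zero_mul]; exact bot_le
        · have h6 : edist (sec (J u) (glue (J u') ω2 ω3) p) (sec (J u') ω3 p) = 0 := by
            rw [← sec_sec hJ]
            rcases hp with rfl | rfl | rfl
            · exact hd.1
            · exact hd.2.1
            · exact hd.2.2
          rw [edist_congr_left h6]
          calc hf u x z y (glue (J u') ω2 ω3) * edist (sec (J u') ω3 p) p'
              ≤ 1 * edist (sec (J u') ω3 p) p' := by gcongr; exact hf_le_one _ _ _ _ _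
            _ = edist (sec (J u') ω3 p) p' := one_mul _
    _ = edist (sec (J u') ω3 p) p' := by simp
    _ = edist (sec (J u') ω3 p) (sec (J u') ω3 p') := by
        rw [edist_comm _ (sec (J u') ω3 p'), edist_congr_left h5, edist_comm]

lemma C3 {u w : W} (IH : ∀ u < w, HS S u) (hlim : ∀ u < w, ∃ u', u < u' ∧ u' < w) (hu : u < w)
    {x z y p : Pt Ix} (hx : x ∈ S.X w) (hz : z ∈ S.X w) (hy : y ∈ S.X w) (hb : Btw x z y)
    (hp : p = x ∨ p = z ∨ p = y) :
    ∀ᵐ ω' ∂(P Ix), hf u x z y ω' = 0 ∨ edist (sec (J u) ω' p) p = 0 := by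
  have hpw : p ∈ S.X w := by rcases hp with rfl | rfl | rfl <;> assumption
  have hm : Measurable fun ω' => hf u x z y ω' * edist (sec (J u) ω' p) p :=
    (meas_hf u x z y).mul (meas_edist_const (J u) p p)
  have hz0 : ∫⁻ ω', hf u x z y ω' * edist (sec (J u) ω' p) p ∂(P Ix) = 0 := by
    refine le_antisymm (ENNReal.le_of_forall_pos_le_add ?_) bot_le
    intro ε hε _
    have hε2 : (0 : ℝ≥0∞) < (ε : ℝ≥0∞) / 2 := by simpa using hε.ne'
    obtain ⟨u', h1, h2, p', hp', hd⟩ := approx hlim hpw hε2 u hu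
    rw [zero_add]
    calc ∫⁻ ω', hf u x z y ω' * edist (sec (J u) ω' p) p ∂(P Ix)
        ≤ ∫⁻ ω', (hf u x z y ω' * edist (sec (J u) ω' p) p' + edist p' p) ∂(P Ix) := by
          apply lintegral_mono
          intro ω'
          calc hf u x z y ω' * edist (sec (J u) ω' p) p
              ≤ hf u x z y ω' * (edist (sec (J u) ω' p) p' + edist p' p) := by
                gcongr; exact edist_triangle _ _ _
            _ = hf u x z y ω' * edist (sec (J u) ω' p) p' + hf u x z y ω' * edist p' p := mul_add _ _ _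
            _ ≤ hf u x z y ω' * edist (sec (J u) ω' p) p' + 1 * edist p' p := by
                gcongr; exact hf_le_one _ _ _ _ _
            _ = _ := by rw [one_mul]
      _ = ∫⁻ ω', hf u x z y ω' * edist (sec (J u) ω' p) p' ∂(P Ix) + edist p' p := by
          rw [lintegral_add_right _ measurable_const]; simp
      _ ≤ edist p p' + edist p' p := by
          gcongr; exact C2 h1 (IH u' h2) hx hz hy hb hp hp'
      _ ≤ (ε : ℝ≥0∞) / 2 + (ε : ℝ≥0∞) / 2 := by
          rw [edist_comm p' p]; gcongr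
      _ = ε := ENNReal.add_halves _
  filter_upwards [(lintegral_eq_zero_iff hm).1 hz0] with ω' hω
  exact mul_eq_zero.1 hω

lemma C1 {w : W} (hlim : ∀ u < w, ∃ u', u < u' ∧ u' < w) {u0 : W} (hu0 : u0 < w)
    {x z y : Pt Ix} (hx : x ∈ S.X w) (hz : z ∈ S.X w) (hy : y ∈ S.X w)
    (h0 : ∀ u < w, ∀ᵐ ω' ∂(P Ix), hf u x z y ω' = 0)
    (hzx : edist z x ≠ 0) (hzy : edist z y ≠ 0) : False := by
  set δ : ℝ≥0∞ := min (edist z x) (edist z y) with hδ
  have hδ0 : 0 < δ := lt_min (pos_iff_ne_zero.2 hzx) (pos_iff_ne_zero.2 hzy)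
  have hδt : δ ≠ ∞ := ne_top_of_le_ne_top (edist_ne_top z x) (min_le_left _ _)
  have hε0 : 0 < δ / 6 := ENNReal.div_pos hδ0.ne' (by simp)
  obtain ⟨u, -, hu, x', hx', z', hz', y', hy', ex, ez, ey⟩ := approx3 hlim hx hz hy hε0 u0 hu0
  let f : (Ix → ℝ) → ℝ≥0∞ := fun ω' => edist (sec (J u) ω' x) x' + edist (sec (J u) ω' z) z' +
    edist (sec (J u) ω' y) y'
  have hfm : Measurable f := ((meas_edist_const _ _ _).add (meas_edist_const _ _ _)).add
    (meas_edist_const _ _ _)
  have hint : ∀ {p p' : Pt Ix}, p' ∈ S.X u → ∫⁻ ω', edist (sec (J u) ω' p) p' ∂(P Ix) =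
      edist p p' := by
    intro p p' hp'
    rw [← lint_edist (J u) p p']
    apply lintegral_congr_ae
    filter_upwards [(X_ad u hp').ae] with ω' h5
    rw [edist_comm _ (sec (J u) ω' p'), edist_congr_left h5, edist_comm]
  have hI : ∫⁻ ω', f ω' ∂(P Ix) ≤ 3 * (δ / 6) := by
    have m1 : Measurable fun ω' => edist (sec (J u) ω' x) x' + edist (sec (J u) ω' z) z' :=
      (meas_edist_const _ _ _).add (meas_edist_const _ _ _)
    have m2 : Measurable fun ω' => edist (sec (J u) ω' x) x' := meas_edist_const _ _ _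
    calc ∫⁻ ω', f ω' ∂(P Ix) = edist x x' + edist z z' + edist y y' := by
          change ∫⁻ ω', (edist (sec (J u) ω' x) x' + edist (sec (J u) ω' z) z') +
            edist (sec (J u) ω' y) y' ∂(P Ix) = _
          rw [lintegral_add_left m1, lintegral_add_left m2, hint hx', hint hz', hint hy']
      _ ≤ δ / 6 + δ / 6 + δ / 6 := by gcongr
      _ = 3 * (δ / 6) := by ring
  have hN : P Ix {ω' | ¬ hf u x z y ω' = 0} = 0 := h0 u hu
  obtain ⟨ω', hω, hle⟩ := exists_notMem_null_le_lintegral hfm.aemeasurable hN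
  have hω0 : hf u x z y ω' = 0 := by
    by_contra h; exact hω h
  have hle' := hle.trans hI
  have h6 : 5 * (δ / 6) < δ := by
    have h66 : (6 : ℝ≥0∞) * (δ / 6) = δ := ENNReal.mul_div_cancel (by simp) (by simp)
    have hat : δ / 6 ≠ ∞ := ENNReal.div_ne_top hδt (by simp)
    calc 5 * (δ / 6) < 5 * (δ / 6) + δ / 6 :=
          ENNReal.lt_add_right (ENNReal.mul_ne_top (by simp) hat) hε0.ne'
      _ = 6 * (δ / 6) := by ring
      _ = δ := h66
  have key : ∀ {p p' : Pt Ix}, edist p p' < δ / 6 → edist (sec (J u) ω' z) (sec (J u) ω' p) = 0 →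
      edist (sec (J u) ω' p) p' + edist (sec (J u) ω' z) z' ≤ 3 * (δ / 6) → edist z p < δ := by
    intro p p' h1 h2 h3
    refine lt_of_le_of_lt ?_ h6
    calc edist z p ≤ edist z z' + edist z' (sec (J u) ω' z) + edist (sec (J u) ω' z) p := by
          refine (edist_triangle z (sec (J u) ω' z) p).trans ?_
          gcongr; exact edist_triangle _ _ _
      _ ≤ edist z z' + edist z' (sec (J u) ω' z) + (edist (sec (J u) ω' p) p' + edist p' p) := by
          gcongr
          rw [edist_congr_left h2]; exact edist_triangle _ _ _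
      _ = (edist z z' + edist p p') + (edist (sec (J u) ω' p) p' + edist (sec (J u) ω' z) z') := by
          rw [edist_comm z' (sec (J u) ω' z), edist_comm p' p]; ring
      _ ≤ (δ / 6 + δ / 6) + 3 * (δ / 6) := by gcongr
      _ = 5 * (δ / 6) := by ring
  unfold hf at hω0
  rcases min_eq_iff.1 hω0 with ⟨h, _⟩ | ⟨h, _⟩
  · have := key ex (edist_zero_symm h) (le_trans (by simp only [f]; exact le_self_add) hle')
    exact absurd (min_le_left _ _) (not_le.2 this)
  · have := key ey h (le_trans (by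
      simp only [f]
      calc edist (sec (J u) ω' y) y' + edist (sec (J u) ω' z) z' ≤
          edist (sec (J u) ω' x) x' + (edist (sec (J u) ω' y) y' + edist (sec (J u) ω' z) z') :=
            le_add_self
        _ = _ := by ring) hle')
    exact absurd (min_le_right _ _) (not_le.2 this)

lemma HS_lim {w : W} (IH : ∀ u < w, HS S u) (hlim : ∀ u < w, ∃ u', u < u' ∧ u' < w) {u0 : W}
    (hu0 : u0 < w) : HS S w := by
  intro x z y hx hz hy hb hzx hzy
  by_cases h0 : ∀ u < w, ∀ᵐ ω' ∂(P Ix), hf u x z y ω' = 0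
  · exact (C1 hlim hu0 hx hz hy h0 hzx hzy).elim
  · push Not at h0
    obtain ⟨u, hu, hfr⟩ := h0
    have h1 := C3 IH hlim hu hx hz hy hb (Or.inl rfl)
    have h2 := C3 IH hlim hu hx hz hy hb (Or.inr (Or.inl rfl))
    have h3 := C3 IH hlim hu hx hz hy hb (Or.inr (Or.inr rfl))
    obtain ⟨ω', hne, h1, h2, h3, m1, m2, m3⟩ := (hfr.and_eventually (h1.and (h2.and (h3.and
      ((X_sec u w hx).and ((X_sec u w hz).and (X_sec u w hy))))))).exists
    have e1 := h1.resolve_left hne
    have e2 := h2.resolve_left hne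
    have e3 := h3.resolve_left hne
    obtain ⟨v, hv, rest⟩ := IH u hu x z y (X_congr m1 e1) (X_congr m2 e2) (X_congr m3 e3) hb hzx hzy
    exact ⟨v, hv.trans hu, rest⟩

/-- the structure theorem -/
theorem HS_all (w : W) : HS S w := by
  induction w using WellFoundedLT.induction with
  | ind w IH =>
  by_cases h1 : ∃ u0, u0 < w
  · obtain ⟨u0, hu0⟩ := h1
    by_cases h2 : ∃ v, v < w ∧ ∀ u < w, u ≤ v
    · obtain ⟨v, hv, hcov⟩ := h2
      exact HS_succ (IH v hv) hv hcov
    · push Not at h2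
      exact HS_lim IH (fun u hu => by
        obtain ⟨u', h3, h4⟩ := h2 u hu
        exact ⟨u', h4, h3⟩) hu0
  · push Not at h1
    exact HS_bot (fun u => not_lt.2 (h1 u))

end Sys
end H261WS
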