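import Mathlib

/-!
Measure-theoretic base of the wild space of `S13768`: product space `ι → ℝ` with independent
uniform coordinates, gluing of two samples, sections of events, switching events.
-/

set_option autoImplicit false
set_option maxHeartbeats 400000
open MeasureTheory Set Filter
open scoped symmDiff ENNReal Topology

namespace H261WS

/-- the uniform law on `(0,1]` -/
noncomputable def μ0 : Measure ℝ := volume.restrict (Ioc (0:ℝ) 1)

instance : IsProbabilityMeasure μ0 := ⟨by simp [μ0]⟩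

lemma μ0_Iic {s : ℝ} (h1 : s ≤ 1) : μ0 (Iic s) = ENNReal.ofReal s := by
  rw [μ0, Measure.restrict_apply measurableSet_Iic]
  have : Iic s ∩ Ioc (0:ℝ) 1 = Ioc 0 s := by
    ext x; simp only [mem_inter_iff, mem_Iic, mem_Ioc]; constructor
    · rintro ⟨a, b, c⟩; exact ⟨b, a⟩
    · rintro ⟨a, b⟩; exact ⟨b, a, b.trans h1⟩
  rw [this]; simp

lemma μ0_Ioc {s t : ℝ} (h0 : 0 ≤ s) (h1 : t ≤ 1) : μ0 (Ioc s t) = ENNReal.ofReal (t - s) := by
  rw [μ0, Measure.restrict_apply measurableSet_Ioc]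
  have : Ioc s t ∩ Ioc (0:ℝ) 1 = Ioc s t := by
    ext x; simp only [mem_inter_iff, mem_Ioc]; constructor
    · rintro ⟨a, b⟩; exact a
    · rintro ⟨a, b⟩; exact ⟨⟨a, b⟩, h0.trans_lt a, b.trans h1⟩
  rw [this]; simp

variable {ι : Type}

/-- the product measure -/
noncomputable abbrev P (ι : Type) : Measure (ι → ℝ) := Measure.infinitePi (fun _ : ι => μ0)

open Classical in
/-- take the coordinates in `J` from `ω`, the others from `ω'` -/
noncomputable def glue (J : Set ι) (ω ω' : ι → ℝ) : ι → ℝ := fun i => if i ∈ J then ω i else ω' i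

lemma measurable_glue (J : Set ι) :
    Measurable (fun q : (ι → ℝ) × (ι → ℝ) => glue J q.1 q.2) := by
  classical
  refine measurable_pi_lambda _ (fun i => ?_)
  unfold glue
  by_cases h : i ∈ J
  · simp only [h, if_true]; fun_prop
  · simp only [h, if_false]; fun_prop

lemma mp_glue (J : Set ι) :
    MeasurePreserving (fun q : (ι → ℝ) × (ι → ℝ) => glue J q.1 q.2) ((P ι).prod (P ι)) (P ι) := by
  classical
  refine ⟨measurable_glue J, ?_⟩
  refine Measure.eq_infinitePi _ (fun s t ht => ?_)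
  rw [Measure.map_apply (measurable_glue J)
    (MeasurableSet.pi s.countable_toSet (fun i _ => ht i))]
  have hpre : (fun q : (ι → ℝ) × (ι → ℝ) => glue J q.1 q.2) ⁻¹' (Set.pi (s : Set ι) t) =
      (Set.pi ((s.filter (fun i => i ∈ J) : Finset ι) : Set ι) t) ×ˢ
        (Set.pi ((s.filter (fun i => i ∉ J) : Finset ι) : Set ι) t) := by
    ext q
    simp only [mem_preimage, mem_prod, Set.mem_pi, Finset.coe_filter, Set.mem_ofPred_eq, glue,
      Finset.mem_coe]
    constructor
    · intro h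
      refine ⟨fun i hi => ?_, fun i hi => ?_⟩
      · have := h i hi.1; rwa [if_pos hi.2] at this
      · have := h i hi.1; rwa [if_neg hi.2] at this
    · rintro ⟨h1, h2⟩ i hi
      by_cases hJ : i ∈ J
      · rw [if_pos hJ]; exact h1 i ⟨hi, hJ⟩
      · rw [if_neg hJ]; exact h2 i ⟨hi, hJ⟩
  rw [hpre, Measure.prod_prod, Measure.infinitePi_pi _ (fun i _ => ht i),
    Measure.infinitePi_pi _ (fun i _ => ht i), Finset.prod_filter_mul_prod_filter_not]

/-- the points: events -/
abbrev Pt (ι : Type) := MeasuredSets (P ι)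

lemma meas_sec (J : Set ι) (ω' : ι → ℝ) {C : Set (ι → ℝ)} (hC : MeasurableSet C) :
    MeasurableSet {ω | glue J ω ω' ∈ C} :=
  ((measurable_glue J).comp (measurable_id.prodMk measurable_const)) hC

/-- section of an event, off `J` -/
noncomputable def sec (J : Set ι) (ω' : ι → ℝ) (A : Pt ι) : Pt ι :=
  ⟨{ω | glue J ω ω' ∈ (A : Set (ι → ℝ))}, meas_sec J ω' A.2⟩

@[simp] lemma mem_sec (J : Set ι) (ω' ω : ι → ℝ) (A : Pt ι) :
    ω ∈ sec J ω' A ↔ glue J ω ω' ∈ A := Iff.rfl

lemma meas_P_sec (J : Set ι) {C : Set (ι → ℝ)} (hC : MeasurableSet C) :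
    Measurable fun ω' => P ι {ω | glue J ω ω' ∈ C} :=
  measurable_measure_prodMk_right (μ := P ι) ((measurable_glue J) hC)

lemma lint_sec (J : Set ι) {C : Set (ι → ℝ)} (hC : MeasurableSet C) :
    ∫⁻ ω', P ι {ω | glue J ω ω' ∈ C} ∂(P ι) = P ι C := by
  rw [← (mp_glue J).measure_preimage hC.nullMeasurableSet,
    Measure.prod_apply_symm ((measurable_glue J) hC)]
  rfl

lemma edist_sec_eq (J : Set ι) (ω' : ι → ℝ) (A B : Pt ι) :
    edist (sec J ω' A) (sec J ω' B) =
      P ι {ω | glue J ω ω' ∈ (A : Set (ι → ℝ)) ∆ (B : Set (ι → ℝ))} := rfl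

lemma lint_edist (J : Set ι) (A B : Pt ι) :
    ∫⁻ ω', edist (sec J ω' A) (sec J ω' B) ∂(P ι) = edist A B := by
  simp_rw [edist_sec_eq]
  exact lint_sec J (A.2.symmDiff B.2)

lemma meas_edist (J : Set ι) (A B : Pt ι) :
    Measurable fun ω' => edist (sec J ω' A) (sec J ω' B) := by
  simp_rw [edist_sec_eq]
  exact meas_P_sec J (A.2.symmDiff B.2)

lemma edist_le_one (A B : Pt ι) : edist A B ≤ 1 := by
  rw [MeasuredSets.edist_def]; exact prob_le_one

lemma sec_congr_ae (J : Set ι) {A B : Pt ι} (h : edist A B = 0) :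
    ∀ᵐ ω' ∂(P ι), edist (sec J ω' A) (sec J ω' B) = 0 := by
  have := lint_edist J A B
  rw [h] at this
  exact (lintegral_eq_zero_iff (meas_edist J A B)).1 this

/-! ### determined and adapted events -/

/-- `A` depends only on the coordinates in `J` -/
def Det (J : Set ι) (A : Pt ι) : Prop :=
  ∀ ω ω' : ι → ℝ, (∀ i ∈ J, ω i = ω' i) → (ω ∈ A ↔ ω' ∈ A)

lemma glue_of_mem {J : Set ι} {i : ι} (h : i ∈ J) (ω ω' : ι → ℝ) : glue J ω ω' i = ω i := by
  simp [glue, h]

lemma glue_of_notMem {J : Set ι} {i : ι} (h : i ∉ J) (ω ω' : ι → ℝ) :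
    glue J ω ω' i = ω' i := by
  simp [glue, h]

lemma sec_det {J J' : Set ι} {A : Pt ι} (hA : Det J A) (hJ : J ⊆ J') (ω' : ι → ℝ) :
    sec J' ω' A = A := by
  apply SetLike.ext
  intro ω
  rw [mem_sec]
  exact hA _ _ (fun i hi => glue_of_mem (hJ hi) ω ω')

lemma det_sec (J : Set ι) (ω' : ι → ℝ) (A : Pt ι) : Det J (sec J ω' A) := by
  intro ω1 ω2 h
  rw [mem_sec, mem_sec]
  have : glue J ω1 ω' = glue J ω2 ω' := by
    funext i
    by_cases hi : i ∈ J
    · rw [glue_of_mem hi, glue_of_mem hi, h i hi]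
    · rw [glue_of_notMem hi, glue_of_notMem hi]
  rw [this]

/-- `A` is a.e. equal to an event depending only on `J` -/
def Ad (J : Set ι) (A : Pt ι) : Prop := ∃ A0 : Pt ι, Det J A0 ∧ edist A A0 = 0

lemma Det.ad {J : Set ι} {A : Pt ι} (h : Det J A) : Ad J A := ⟨A, h, edist_self _⟩

lemma Det.mono {J J' : Set ι} {A : Pt ι} (h : Det J A) (hJ : J ⊆ J') : Det J' A :=
  fun ω ω' hh => h ω ω' (fun i hi => hh i (hJ hi))

lemma Ad.mono {J J' : Set ι} {A : Pt ι} (h : Ad J A) (hJ : J ⊆ J') : Ad J' A := by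
  obtain ⟨A0, h0, h1⟩ := h
  exact ⟨A0, h0.mono hJ, h1⟩

lemma edist_zero_trans {A B C : Pt ι} (h1 : edist A B = 0) (h2 : edist B C = 0) :
    edist A C = 0 := by
  have := edist_triangle A B C
  rw [h1, h2] at this
  simpa using this

lemma edist_zero_symm {A B : Pt ι} (h1 : edist A B = 0) : edist B A = 0 := by
  rwa [edist_comm]

lemma edist_congr_left {A B C : Pt ι} (h : edist A B = 0) : edist A C = edist B C := by
  apply le_antisymm
  · have := edist_triangle A B C; rwa [h, zero_add] at this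
  · have := edist_triangle B A C; rwa [edist_zero_symm h, zero_add] at this

lemma edist_congr_right {A B C : Pt ι} (h : edist A B = 0) : edist C A = edist C B := by
  rw [edist_comm, edist_congr_left h, edist_comm]

lemma Ad.ae {J : Set ι} {A : Pt ι} (h : Ad J A) :
    ∀ᵐ ω' ∂(P ι), edist (sec J ω' A) A = 0 := by
  obtain ⟨A0, h0, h1⟩ := h
  filter_upwards [sec_congr_ae J h1] with ω' hω
  rw [sec_det h0 subset_rfl] at hω
  exact edist_zero_trans hω (edist_zero_symm h1)

lemma ad_of_ae {J : Set ι} {A : Pt ι} (h : ∀ᵐ ω' ∂(P ι), edist (sec J ω' A) A = 0) : Ad J A := by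
  obtain ⟨ω', hω⟩ := h.exists
  exact ⟨sec J ω' A, det_sec J ω' A, edist_zero_symm hω⟩

lemma Ad.congr {J : Set ι} {A B : Pt ι} (h : Ad J A) (hAB : edist A B = 0) : Ad J B := by
  obtain ⟨A0, h0, h1⟩ := h
  exact ⟨A0, h0, edist_zero_trans (edist_zero_symm hAB) h1⟩

/-- passing to the limit in sections -/
lemma sec_closure (J : Set ι) {S C : Set (Pt ι)} (hC : IsClosed C)
    (hS : ∀ s ∈ S, ∀ᵐ ω' ∂(P ι), sec J ω' s ∈ C) {A : Pt ι} (hA : A ∈ closure S) :
    ∀ᵐ ω' ∂(P ι), sec J ω' A ∈ C := by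
  have hex : ∀ n : ℕ, ∃ s ∈ S, edist A s < (2⁻¹ : ℝ≥0∞) ^ n := fun n =>
    EMetric.mem_closure_iff.1 hA _ (ENNReal.pow_pos (by simp) n)
  choose s hs hsd using hex
  have h1 : ∀ᵐ ω' ∂(P ι), ∀ n, sec J ω' (s n) ∈ C := ae_all_iff.2 (fun n => hS _ (hs n))
  have h2 : ∫⁻ ω', ∑' n, edist (sec J ω' A) (sec J ω' (s n)) ∂(P ι) ≠ ∞ := by
    rw [lintegral_tsum (fun n => (meas_edist J A (s n)).aemeasurable)]
    simp_rw [lint_edist]
    refine ne_of_lt (lt_of_le_of_lt (ENNReal.tsum_le_tsum (fun n => (hsd n).le)) ?_)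
    rw [ENNReal.tsum_geometric]
    simp
  have h3 : ∀ᵐ ω' ∂(P ι), ∑' n, edist (sec J ω' A) (sec J ω' (s n)) < ∞ :=
    ae_lt_top (Measurable.tsum (fun n => meas_edist J A (s n))) h2
  filter_upwards [h1, h3] with ω' h1 h3
  have h4 := ENNReal.tendsto_atTop_zero_of_tsum_ne_top h3.ne
  refine hC.mem_of_tendsto (f := fun n => sec J ω' (s n)) (b := atTop) ?_
    (Eventually.of_forall h1)
  rw [tendsto_iff_edist_tendsto_0]
  simpa [edist_comm] using h4

lemma ad_isClosed (J : Set ι) : IsClosed {A : Pt ι | Ad J A} := by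
  rw [← closure_subset_iff_isClosed]
  intro A hA
  apply ad_of_ae
  have key : ∀ ε : ℝ≥0∞, 0 < ε → ∫⁻ ω', edist (sec J ω' A) A ∂(P ι) ≤ 2 * ε := by
    intro ε hε
    obtain ⟨B, hB, hAB⟩ := EMetric.mem_closure_iff.1 hA ε hε
    have hB' : Ad J B := hB
    calc ∫⁻ ω', edist (sec J ω' A) A ∂(P ι)
        ≤ ∫⁻ ω', (edist (sec J ω' A) (sec J ω' B) + edist A B) ∂(P ι) := by
          apply lintegral_mono_ae
          filter_upwards [hB'.ae] with ω' hω
          calc edist (sec J ω' A) A ≤ edist (sec J ω' A) (sec J ω' B) + edist (sec J ω' B) A :=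
                edist_triangle _ _ _
            _ = edist (sec J ω' A) (sec J ω' B) + edist A B := by
                rw [edist_congr_left hω, edist_comm B A]
      _ = edist A B + edist A B := by
          rw [lintegral_add_left (meas_edist J A B), lint_edist]; simp
      _ ≤ 2 * ε := by rw [← two_mul]; gcongr
  have hz : ∫⁻ ω', edist (sec J ω' A) A ∂(P ι) = 0 := by
    refine le_antisymm (ENNReal.le_of_forall_pos_le_add ?_) bot_le
    intro ε hε _
    have := key (ε / 2) (by simpa using hε.ne')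
    rw [zero_add]
    refine this.trans (le_of_eq ?_)
    rw [ENNReal.mul_div_cancel (by simp) (by simp)]
  have hm : Measurable fun ω' => edist (sec J ω' A) A := by
    have : (fun ω' => edist (sec J ω' A) A) = fun ω' =>
        P ι ((fun ω => (ω, ω')) ⁻¹' ({q : (ι → ℝ) × (ι → ℝ) | glue J q.1 q.2 ∈ (A : Set (ι → ℝ))} ∆
          {q | q.1 ∈ (A : Set (ι → ℝ))})) := rfl
    rw [this]
    exact measurable_measure_prodMk_right
      (((measurable_glue J) A.2).symmDiff (measurable_fst A.2))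
  exact (lintegral_eq_zero_iff hm).1 hz

end H261WS
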