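import Pool.Agent.H261R3.WS.Meas

/-!
Switching events `G i a b s`, distances, betweenness, completeness of the space of events.
-/

set_option autoImplicit false
set_option maxHeartbeats 400000
open MeasureTheory Set Filter
open scoped symmDiff ENNReal Topology

namespace H261WS

variable {ι : Type}

lemma mp_eval (i : ι) : MeasurePreserving (fun ω : ι → ℝ => ω i) (P ι) μ0 :=
  measurePreserving_eval_infinitePi (fun _ : ι => μ0) i

lemma P_le (i : ι) {t : ℝ} (h1 : t ≤ 1) :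
    P ι {ω | ω i ≤ t} = ENNReal.ofReal t := by
  rw [← μ0_Iic h1, ← (mp_eval i).measure_preimage measurableSet_Iic.nullMeasurableSet]; rfl

lemma P_Ioc (i : ι) {s t : ℝ} (h0 : 0 ≤ s) (h1 : t ≤ 1) :
    P ι {ω | s < ω i ∧ ω i ≤ t} = ENNReal.ofReal (t - s) := by
  rw [← μ0_Ioc h0 h1, ← (mp_eval i).measure_preimage measurableSet_Ioc.nullMeasurableSet]; rfl

lemma P_lt (i : ι) {t : ℝ} (h0 : 0 ≤ t) (h1 : t ≤ 1) :
    P ι {ω | t < ω i} = ENNReal.ofReal (1 - t) := by
  have hc : {ω : ι → ℝ | t < ω i} = {ω | ω i ≤ t}ᶜ := by ext; simp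
  have hm : MeasurableSet {ω : ι → ℝ | ω i ≤ t} := (measurable_pi_apply i) measurableSet_Iic
  rw [hc, prob_compl_eq_one_sub hm, P_le i h1, ENNReal.ofReal_sub 1 h0, ENNReal.ofReal_one]

lemma pick (i : ι) {Q : (ι → ℝ) → Prop} (hQ : ∀ᵐ ω ∂(P ι), Q ω) {s t : ℝ} (h0 : 0 ≤ s)
    (hst : s < t) (h1 : t ≤ 1) : ∃ ω, Q ω ∧ s < ω i ∧ ω i ≤ t := by
  by_contra hcon
  push Not at hcon
  have h2 : P ι {ω | s < ω i ∧ ω i ≤ t} = 0 := by
    refine measure_mono_null (t := {ω | ¬ Q ω}) ?_ hQ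
    intro ω hω hq
    exact absurd hω.2 (not_le.2 (hcon ω hq hω.1))
  rw [P_Ioc i h0 h1] at h2
  simp only [ENNReal.ofReal_eq_zero] at h2
  linarith

lemma int_if (i : ι) {t : ℝ} (h0 : 0 ≤ t) (h1 : t ≤ 1) (c1 c2 : ℝ≥0∞) :
    ∫⁻ ω, (if ω i ≤ t then c1 else c2) ∂(P ι) =
      ENNReal.ofReal t * c1 + ENNReal.ofReal (1 - t) * c2 := by
  have hm1 : MeasurableSet {ω : ι → ℝ | ω i ≤ t} := (measurable_pi_apply i) measurableSet_Iic
  have hm2 : MeasurableSet {ω : ι → ℝ | t < ω i} := (measurable_pi_apply i) measurableSet_Ioi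
  have he : (fun ω : ι → ℝ => if ω i ≤ t then c1 else c2) = fun ω =>
      ({ω : ι → ℝ | ω i ≤ t}.indicator (fun _ => c1) ω) +
        ({ω : ι → ℝ | t < ω i}.indicator (fun _ => c2) ω) := by
    funext ω
    by_cases h : ω i ≤ t
    · simp [Set.indicator, h, not_lt.2 h]
    · simp [Set.indicator, h, not_le.1 h]
  rw [he, lintegral_add_left (measurable_const.indicator hm1), lintegral_indicator_const hm1,
    lintegral_indicator_const hm2, P_le i h1, P_lt i h0 h1, mul_comm, mul_comm c2]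

lemma int_ioc (i : ι) {s t : ℝ} (h0 : 0 ≤ s) (h1 : t ≤ 1) (c : ℝ≥0∞) :
    ∫⁻ ω, (if s < ω i ∧ ω i ≤ t then c else 0) ∂(P ι) = ENNReal.ofReal (t - s) * c := by
  have hm1 : MeasurableSet {ω : ι → ℝ | s < ω i ∧ ω i ≤ t} :=
    (measurable_pi_apply i) measurableSet_Ioc
  have he : (fun ω : ι → ℝ => if s < ω i ∧ ω i ≤ t then c else 0) =
      ({ω : ι → ℝ | s < ω i ∧ ω i ≤ t}.indicator (fun _ => c)) := by
    funext ω
    simp [Set.indicator]
  rw [he, lintegral_indicator_const hm1, P_Ioc i h0 h1, mul_comm]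

/-- the switching event: `b` if the `i`-th coordinate is at most `s`, else `a` -/
noncomputable def G (i : ι) (a b : Pt ι) (s : ℝ) : Pt ι :=
  ⟨{ω | (ω i ≤ s ∧ ω ∈ (b : Set (ι → ℝ))) ∨ (s < ω i ∧ ω ∈ (a : Set (ι → ℝ)))},
    (((measurable_pi_apply i) measurableSet_Iic).inter b.2).union
      (((measurable_pi_apply i) measurableSet_Ioi).inter a.2)⟩

lemma mem_G (i : ι) (a b : Pt ι) (s : ℝ) (ω : ι → ℝ) :
    ω ∈ G i a b s ↔ (ω i ≤ s ∧ ω ∈ b) ∨ (s < ω i ∧ ω ∈ a) := Iff.rfl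

lemma sec_G_notMem {J : Set ι} {i : ι} (hi : i ∉ J) (ω' : ι → ℝ) (a b : Pt ι) (s : ℝ) :
    sec J ω' (G i a b s) = if ω' i ≤ s then sec J ω' b else sec J ω' a := by
  apply SetLike.ext
  intro ω
  rw [mem_sec, mem_G, glue_of_notMem hi]
  by_cases h : ω' i ≤ s
  · simp [h, not_lt.2 h]
  · simp [h, not_le.1 h]

lemma det_G {J : Set ι} {i : ι} (hi : i ∈ J) {a b : Pt ι} (ha : Det J a) (hb : Det J b) (s : ℝ) :
    Det J (G i a b s) := by
  intro ω ω' h
  rw [mem_G, mem_G, h i hi, ha ω ω' h, hb ω ω' h]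

lemma G_congr (i : ι) {a b a' b' : Pt ι} (ha : edist a a' = 0) (hb : edist b b' = 0) (s : ℝ) :
    edist (G i a b s) (G i a' b' s) = 0 := by
  rw [MeasuredSets.edist_def] at *
  refine measure_mono_null (t := ((a : Set (ι → ℝ)) ∆ a') ∪ ((b : Set (ι → ℝ)) ∆ b')) ?_
    (measure_union_null ha hb)
  intro ω hω
  simp only [Set.mem_union, Set.mem_symmDiff, SetLike.mem_coe, mem_G] at hω ⊢
  by_cases h : ω i ≤ s
  · simp only [h, not_lt.2 h, true_and, false_and, or_false] at hω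
    exact Or.inr hω
  · simp only [h, not_le.1 h, true_and, false_and, false_or] at hω
    exact Or.inl hω

lemma ad_G {J : Set ι} {i : ι} (hi : i ∈ J) {a b : Pt ι} (ha : Ad J a) (hb : Ad J b) (s : ℝ) :
    Ad J (G i a b s) := by
  obtain ⟨a', ha1, ha2⟩ := ha
  obtain ⟨b', hb1, hb2⟩ := hb
  exact ⟨G i a' b' s, det_G hi ha1 hb1 s, G_congr i ha2 hb2 s⟩

/-- distances from older events are affine along new segments -/
lemma affine {J : Set ι} {i : ι} (hi : i ∉ J) {u a b : Pt ι} (hu : Ad J u) (ha : Ad J a)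
    (hb : Ad J b) {t : ℝ} (h0 : 0 ≤ t) (h1 : t ≤ 1) :
    edist u (G i a b t) = ENNReal.ofReal t * edist u b + ENNReal.ofReal (1 - t) * edist u a := by
  rw [← lint_edist J u (G i a b t), ← int_if i h0 h1]
  apply lintegral_congr_ae
  filter_upwards [hu.ae, ha.ae, hb.ae] with ω' h1 h2 h3
  rw [sec_G_notMem hi]
  split_ifs with h
  · rw [edist_congr_left h1, edist_congr_right h3]
  · rw [edist_congr_left h1, edist_congr_right h2]

lemma edist_G {J : Set ι} {i : ι} (hi : i ∉ J) {a b : Pt ι} (ha : Ad J a)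
    (hb : Ad J b) {s t : ℝ} (h0 : 0 ≤ s) (hst : s ≤ t) (h1 : t ≤ 1) :
    edist (G i a b s) (G i a b t) = ENNReal.ofReal (t - s) * edist a b := by
  rw [← lint_edist J (G i a b s) (G i a b t), ← int_ioc i h0 h1]
  apply lintegral_congr_ae
  filter_upwards [ha.ae, hb.ae] with ω' h2 h3
  rw [sec_G_notMem hi, sec_G_notMem hi]
  by_cases h : ω' i ≤ s
  · have h' : ω' i ≤ t := h.trans hst
    simp [h, h', not_lt.2 h]
  · by_cases h' : ω' i ≤ t
    · simp only [h, h', not_le.1 h, if_true, if_false, and_self]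
      rw [edist_congr_left h2, edist_congr_right h3]
    · simp [h, h']

lemma dist_eq_toReal (x y : Pt ι) : dist x y = (edist x y).toReal := by
  rw [edist_dist, ENNReal.toReal_ofReal dist_nonneg]

lemma dist_affine {J : Set ι} {i : ι} (hi : i ∉ J) {u a b : Pt ι} (hu : Ad J u) (ha : Ad J a)
    (hb : Ad J b) {t : ℝ} (h0 : 0 ≤ t) (h1 : t ≤ 1) :
    dist u (G i a b t) = t * dist u b + (1 - t) * dist u a := by
  rw [dist_eq_toReal, affine hi hu ha hb h0 h1, ENNReal.toReal_add, ENNReal.toReal_mul,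
    ENNReal.toReal_mul, ENNReal.toReal_ofReal h0, ENNReal.toReal_ofReal (by linarith),
    dist_eq_toReal, dist_eq_toReal]
  · exact ENNReal.mul_ne_top (by simp) (edist_ne_top _ _)
  · exact ENNReal.mul_ne_top (by simp) (edist_ne_top _ _)

lemma dist_G {J : Set ι} {i : ι} (hi : i ∉ J) {a b : Pt ι} (ha : Ad J a)
    (hb : Ad J b) {s t : ℝ} (hs : s ∈ Icc (0:ℝ) 1) (ht : t ∈ Icc (0:ℝ) 1) :
    dist (G i a b s) (G i a b t) = |s - t| * dist a b := by
  wlog hst : s ≤ t generalizing s t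
  · rw [dist_comm, this ht hs (le_of_not_ge hst), abs_sub_comm]
  · rw [dist_eq_toReal, edist_G hi ha hb hs.1 hst ht.2, ENNReal.toReal_mul,
      ENNReal.toReal_ofReal (by linarith), dist_eq_toReal, abs_sub_comm, abs_of_nonneg (by linarith)]

/-! ### betweenness -/

def Btw (x z y : Pt ι) : Prop := edist x z + edist z y = edist x y

lemma Btw.symm {x z y : Pt ι} (h : Btw x z y) : Btw y z x := by
  unfold Btw at *
  rw [edist_comm y z, edist_comm z x, edist_comm y x, add_comm]; exact h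

lemma btw_sec (J : Set ι) {x z y : Pt ι} (h : Btw x z y) :
    ∀ᵐ ω' ∂(P ι), Btw (sec J ω' x) (sec J ω' z) (sec J ω' y) := by
  have h1 : (fun ω' => edist (sec J ω' x) (sec J ω' y)) ≤ᵐ[P ι]
      (fun ω' => edist (sec J ω' x) (sec J ω' z) + edist (sec J ω' z) (sec J ω' y)) :=
    Eventually.of_forall (fun ω' => edist_triangle _ _ _)
  have h2 := ae_eq_of_ae_le_of_lintegral_le h1
    (by rw [lint_edist]; exact edist_ne_top _ _)
    ((meas_edist J x z).add (meas_edist J z y)).aemeasurable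
    (by rw [lintegral_add_left (meas_edist J x z), lint_edist, lint_edist, lint_edist]
        exact h.le)
  filter_upwards [h2] with ω' hω
  exact hω.symm

lemma Btw.congr {x z y x' z' y' : Pt ι} (h : Btw x z y) (hx : edist x x' = 0)
    (hz : edist z z' = 0) (hy : edist y y' = 0) : Btw x' z' y' := by
  unfold Btw at *
  rw [← edist_congr_left hx, ← edist_congr_right hz, ← edist_congr_left hz,
    ← edist_congr_right hy, ← edist_congr_left hx, ← edist_congr_right hy]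
  exact h

lemma Btw.eq_of_eq {x z y : Pt ι} (h : Btw x z y) (hxy : edist x y = 0) : edist z x = 0 := by
  unfold Btw at h
  rw [hxy] at h
  rw [edist_comm]
  exact (add_eq_zero.1 h).1

/-! ### completeness -/

instance : CompleteSpace (Pt ι) := by
  refine EMetric.complete_of_convergent_controlled_sequences (fun n => (2⁻¹ : ℝ≥0∞) ^ n)
    (fun n => ENNReal.pow_pos (by simp) n) ?_
  intro u hu
  let A : Pt ι := ⟨⋃ n, ⋂ m ≥ n, (u m : Set (ι → ℝ)),
    MeasurableSet.iUnion (fun n => MeasurableSet.iInter (fun m => MeasurableSet.iInter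
      (fun _ => (u m).2)))⟩
  refine ⟨A, ?_⟩
  have hkey : ∀ N, edist (u N) A ≤ 2 * (2⁻¹ : ℝ≥0∞) ^ N := by
    intro N
    have hsub : ((u N : Set (ι → ℝ)) ∆ (A : Set (ι → ℝ))) ⊆
        ⋃ k : ℕ, ((u (N + k) : Set (ι → ℝ)) ∆ (u (N + (k + 1)) : Set (ι → ℝ))) := by
      intro ω hω
      by_contra hcon
      simp only [Set.mem_iUnion, not_exists] at hcon
      have hst : ∀ k, (ω ∈ (u (N + k) : Set (ι → ℝ)) ↔ ω ∈ (u N : Set (ι → ℝ))) := by
        intro k
        induction k with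
        | zero => simp
        | succ k ih =>
          rw [← ih]
          have := hcon k
          rw [Set.mem_symmDiff] at this
          tauto
      have hst' : ∀ m, N ≤ m → (ω ∈ (u m : Set (ι → ℝ)) ↔ ω ∈ (u N : Set (ι → ℝ))) := by
        intro m hm
        obtain ⟨k, rfl⟩ := Nat.exists_eq_add_of_le hm
        exact hst k
      have hA : ω ∈ (A : Set (ι → ℝ)) ↔ ω ∈ (u N : Set (ι → ℝ)) := by
        change ω ∈ (⋃ n, ⋂ m ≥ n, (u m : Set (ι → ℝ))) ↔ _
        simp only [Set.mem_iUnion, Set.mem_iInter]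
        constructor
        · rintro ⟨n, hn⟩
          exact (hst' (max n N) (le_max_right _ _)).1 (hn _ (le_max_left _ _))
        · intro h
          exact ⟨N, fun m hm => (hst' m hm).2 h⟩
      rw [Set.mem_symmDiff] at hω
      tauto
    calc edist (u N) A = P ι ((u N : Set (ι → ℝ)) ∆ (A : Set (ι → ℝ))) := rfl
      _ ≤ P ι (⋃ k : ℕ, ((u (N + k) : Set (ι → ℝ)) ∆ (u (N + (k + 1)) : Set (ι → ℝ)))) :=
          measure_mono hsub
      _ ≤ ∑' k : ℕ, P ι ((u (N + k) : Set (ι → ℝ)) ∆ (u (N + (k + 1)) : Set (ι → ℝ))) :=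
          measure_iUnion_le _
      _ ≤ ∑' k : ℕ, (2⁻¹ : ℝ≥0∞) ^ N * (2⁻¹ : ℝ≥0∞) ^ k := by
          refine ENNReal.tsum_le_tsum (fun k => ?_)
          rw [← pow_add]
          exact (hu (N + k) (N + k) (N + (k + 1)) le_rfl (by omega)).le
      _ = 2 * (2⁻¹ : ℝ≥0∞) ^ N := by
          rw [ENNReal.tsum_mul_left, ENNReal.tsum_geometric, ENNReal.one_sub_inv_two, inv_inv,
            mul_comm]
  rw [tendsto_iff_edist_tendsto_0]
  have hlim : Tendsto (fun N : ℕ => 2 * (2⁻¹ : ℝ≥0∞) ^ N) atTop (𝓝 (2 * 0)) :=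
    ENNReal.Tendsto.const_mul (ENNReal.tendsto_pow_atTop_nhds_zero_of_lt_one (by simp))
      (Or.inr (by simp))
  rw [mul_zero] at hlim
  exact tendsto_of_tendsto_of_tendsto_of_le_of_le tendsto_const_nhds hlim (fun _ => bot_le) hkey

end H261WS
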