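import Pool.Agent.H261R3.WS.Index

/-!
The transfinite construction and its first properties.
-/

set_option autoImplicit false
set_option maxHeartbeats 400000
open MeasureTheory Set Filter
open scoped symmDiff ENNReal Topology

namespace H261WS

/-- coordinates available before stage `w` -/
def J (w : W) : Set Ix := {i | ∀ v, i = some v → v < w}

lemma notMem_J {u v : W} (h : ¬ v < u) : (some v : Ix) ∉ J u := fun hh => h (hh v rfl)
lemma mem_J {u v : W} (h : v < u) : (some v : Ix) ∈ J u := by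
  intro v' hv'
  obtain rfl := Option.some.inj hv'
  exact h
lemma none_mem_J (u : W) : (none : Ix) ∈ J u := fun v hv => by simp at hv
lemma J_mono {u v : W} (h : u ≤ v) : J u ⊆ J v := fun _ hi v' hv' => (hi v' hv').trans_le h

/-- base points -/
noncomputable def bs (s t : ℝ) : Pt Ix :=
  ⟨{ω | s < ω none ∧ ω none ≤ t}, (measurable_pi_apply (none : Ix)) measurableSet_Ioc⟩

noncomputable def base1 : Pt Ix := bs 0 (1/3)
noncomputable def base2 : Pt Ix := bs (1/3) (2/3)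
noncomputable def base3 : Pt Ix := bs (2/3) 1

def base : Set (Pt Ix) := {base1, base2, base3}

lemma det_bs (s t : ℝ) (w : W) : Det (J w) (bs s t) := by
  intro ω ω' h
  change (s < ω none ∧ ω none ≤ t) ↔ (s < ω' none ∧ ω' none ≤ t)
  rw [h none (none_mem_J w)]

lemma det_base {x : Pt Ix} (hx : x ∈ base) (w : W) : Det (J w) x := by
  rcases hx with rfl | rfl | rfl <;> exact det_bs _ _ w

noncomputable def SegA (A B : W → Pt Ix) (v : W) (s : ℝ) : Pt Ix := G (some v) (A v) (B v) s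

def genA (A B : W → Pt Ix) (Act : W → Prop) (w : W) : Set (Pt Ix) :=
  base ∪ {x | ∃ v, v < w ∧ Act v ∧ ∃ s ∈ Icc (0:ℝ) 1, x = SegA A B v s}

def XA (A B : W → Pt Ix) (Act : W → Prop) (w : W) : Set (Pt Ix) := closure (genA A B Act w)

/-- an unjoined pair -/
def Good (S : Set (Pt Ix)) (a b : Pt Ix) : Prop :=
  a ∈ S ∧ b ∈ S ∧ edist a b ≠ 0 ∧ ∀ z ∈ S, Btw a z b → edist z a = 0 ∨ edist z b = 0

lemma exists_Act (A B : W → Pt Ix) :
    ∃ Act : W → Prop, ∀ w, Act w ↔ Good (XA A B Act w) (A w) (B w) := by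
  have wf : WellFounded (fun v w : W => v < w) := wellFounded_lt
  let F : ∀ w : W, (∀ v : W, v < w → Prop) → Prop := fun w rec =>
    Good (closure (base ∪ {x | ∃ v, ∃ h : v < w, rec v h ∧ ∃ s ∈ Icc (0:ℝ) 1, x = SegA A B v s}))
      (A w) (B w)
  refine ⟨wf.fix F, fun w => ?_⟩
  have h1 : wf.fix F w = F w (fun v _ => wf.fix F v) := wf.fix_eq F w
  rw [h1]
  have h2 : closure (base ∪ {x | ∃ v, ∃ _ : v < w, wf.fix F v ∧ ∃ s ∈ Icc (0:ℝ) 1,
      x = SegA A B v s}) = XA A B (wf.fix F) w := by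
    unfold XA genA
    congr 2
    ext x
    constructor
    · rintro ⟨v, h, h', h''⟩; exact ⟨v, h, h', h''⟩
    · rintro ⟨v, h, h', h''⟩; exact ⟨v, h, h', h''⟩
  change Good (closure (base ∪ {x | ∃ v, ∃ _ : v < w, wf.fix F v ∧ ∃ s ∈ Icc (0:ℝ) 1,
      x = SegA A B v s})) (A w) (B w) ↔ _
  rw [h2]

/-- the whole construction -/
structure Sys where
  A : W → Pt Ix
  B : W → Pt Ix
  Act : W → Prop
  hAct : ∀ w, Act w ↔ Good (XA A B Act w) (A w) (B w)
  hbk : ∀ (w : W) (a b : Pt Ix), ∃ w', w ≤ w' ∧ A w' = a ∧ B w' = b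

lemma exists_Sys : Nonempty Sys := by
  obtain ⟨b, hb⟩ := exists_bk
  obtain ⟨Act, hAct⟩ := exists_Act (fun w => (b w).1) (fun w => (b w).2)
  refine ⟨⟨_, _, Act, hAct, fun w x y => ?_⟩⟩
  obtain ⟨w', h1, h2⟩ := hb w (x, y)
  exact ⟨w', h1, by simp [h2], by simp [h2]⟩

namespace Sys

variable (S : Sys)

noncomputable def Seg (v : W) (s : ℝ) : Pt Ix := G (some v) (S.A v) (S.B v) s
def X (w : W) : Set (Pt Ix) := XA S.A S.B S.Act w
def gen (w : W) : Set (Pt Ix) :=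
  base ∪ {x | ∃ v, v < w ∧ S.Act v ∧ ∃ s ∈ Icc (0:ℝ) 1, x = S.Seg v s}

def On (v : W) (x : Pt Ix) : Prop := ∃ s ∈ Icc (0:ℝ) 1, edist x (S.Seg v s) = 0

lemma X_eq (w : W) : S.X w = closure (S.gen w) := rfl

lemma X_closed (w : W) : IsClosed (S.X w) := isClosed_closure

variable {S}

lemma gen_mono {v w : W} (h : v ≤ w) : S.gen v ⊆ S.gen w := by
  rintro x (hx | ⟨u, h1, h2, h3⟩)
  · exact Or.inl hx
  · exact Or.inr ⟨u, h1.trans_le h, h2, h3⟩

lemma X_mono {v w : W} (h : v ≤ w) : S.X v ⊆ S.X w := closure_mono (gen_mono h)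

lemma mem_of_closed {C : Set (Pt Ix)} (hC : IsClosed C) {x y : Pt Ix} (hx : x ∈ C)
    (h : edist x y = 0) : y ∈ C := by
  have : y ∈ closure C := by
    rw [EMetric.mem_closure_iff]
    intro ε hε
    exact ⟨x, hx, by rwa [edist_comm, h]⟩
  rwa [hC.closure_eq] at this

lemma X_congr {w : W} {x y : Pt Ix} (hx : x ∈ S.X w) (h : edist x y = 0) : y ∈ S.X w :=
  mem_of_closed (S.X_closed w) hx h

lemma Act.A_mem {v : W} (h : S.Act v) : S.A v ∈ S.X v := ((S.hAct v).1 h).1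
lemma Act.B_mem {v : W} (h : S.Act v) : S.B v ∈ S.X v := ((S.hAct v).1 h).2.1
lemma Act.ne {v : W} (h : S.Act v) : edist (S.A v) (S.B v) ≠ 0 := ((S.hAct v).1 h).2.2.1
lemma Act.gap {v : W} (h : S.Act v) {z : Pt Ix} (hz : z ∈ S.X v) (hb : Btw (S.A v) z (S.B v)) :
    edist z (S.A v) = 0 ∨ edist z (S.B v) = 0 := ((S.hAct v).1 h).2.2.2 z hz hb

lemma Seg_mem {v w : W} (h : S.Act v) (hvw : v < w) {s : ℝ} (hs : s ∈ Icc (0:ℝ) 1) :
    S.Seg v s ∈ S.X w :=
  subset_closure (Or.inr ⟨v, hvw, h, s, hs, rfl⟩)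

lemma On_mem {v w : W} (h : S.Act v) (hvw : v < w) {x : Pt Ix} (hx : S.On v x) :
    x ∈ S.X w := by
  obtain ⟨s, hs, hx⟩ := hx
  exact X_congr (Seg_mem h hvw hs) (edist_zero_symm hx)

lemma X_ad : ∀ (w : W) {x : Pt Ix}, x ∈ S.X w → Ad (J w) x := by
  intro w
  induction w using WellFoundedLT.induction with
  | ind w ih =>
  intro x hx
  have hsub : S.gen w ⊆ {x | Ad (J w) x} := by
    rintro x (hx | ⟨v, h1, h2, s, hs, rfl⟩)
    · exact (det_base hx w).ad
    · exact ad_G (mem_J h1) ((ih v h1 h2.A_mem).mono (J_mono h1.le))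
        ((ih v h1 h2.B_mem).mono (J_mono h1.le)) s
  exact (ad_isClosed (J w)).closure_subset_iff.2 hsub hx

lemma X_sec (u : W) : ∀ (w : W) {x : Pt Ix}, x ∈ S.X w →
    ∀ᵐ ω' ∂(P Ix), sec (J u) ω' x ∈ S.X u := by
  intro w
  induction w using WellFoundedLT.induction with
  | ind w ih =>
  intro x hx
  refine sec_closure (J u) (S.X_closed u) ?_ hx
  rintro x (hx | ⟨v, h1, h2, s, hs, rfl⟩)
  · refine Eventually.of_forall (fun ω' => ?_)
    rw [sec_det (det_base hx u) subset_rfl]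
    exact subset_closure (Or.inl hx)
  · by_cases hvu : v < u
    · have hm : S.Seg v s ∈ S.X u := Seg_mem h2 hvu hs
      filter_upwards [(X_ad u hm).ae] with ω' hω
      exact X_congr hm (edist_zero_symm hω)
    · filter_upwards [ih v h1 h2.A_mem, ih v h1 h2.B_mem] with ω' hA hB
      change sec (J u) ω' (G (some v) (S.A v) (S.B v) s) ∈ S.X u
      rw [sec_G_notMem (notMem_J hvu)]
      split_ifs
      · exact hB
      · exact hA

lemma Act.adA {v : W} (h : S.Act v) : Ad (J v) (S.A v) := X_ad v h.A_mem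
lemma Act.adB {v : W} (h : S.Act v) : Ad (J v) (S.B v) := X_ad v h.B_mem

lemma dist_Seg {v : W} (h : S.Act v) {s t : ℝ} (hs : s ∈ Icc (0:ℝ) 1) (ht : t ∈ Icc (0:ℝ) 1) :
    dist (S.Seg v s) (S.Seg v t) = |s - t| * dist (S.A v) (S.B v) :=
  dist_G (notMem_J (lt_irrefl v)) h.adA h.adB hs ht

lemma Seg_zero {v : W} (h : S.Act v) : edist (S.A v) (S.Seg v 0) = 0 := by
  unfold Seg
  rw [affine (notMem_J (lt_irrefl v)) h.adA h.adA h.adB le_rfl zero_le_one]
  simp

lemma Seg_one {v : W} (h : S.Act v) : edist (S.B v) (S.Seg v 1) = 0 := by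
  unfold Seg
  rw [affine (notMem_J (lt_irrefl v)) h.adB h.adA h.adB zero_le_one le_rfl]
  simp

lemma On_A {v : W} (h : S.Act v) : S.On v (S.A v) := ⟨0, ⟨le_rfl, zero_le_one⟩, Seg_zero h⟩
lemma On_B {v : W} (h : S.Act v) : S.On v (S.B v) := ⟨1, ⟨zero_le_one, le_rfl⟩, Seg_one h⟩

lemma On.congr {v : W} {x y : Pt Ix} (h : S.On v x) (hxy : edist x y = 0) : S.On v y := by
  obtain ⟨s, hs, hx⟩ := h
  exact ⟨s, hs, edist_zero_trans (edist_zero_symm hxy) hx⟩

lemma dist_pos {v : W} (h : S.Act v) : 0 < dist (S.A v) (S.B v) := by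
  rw [dist_eq_toReal]
  exact ENNReal.toReal_pos h.ne (edist_ne_top _ _)

lemma On_sec {u v : W} (huv : ¬ v < u) {x : Pt Ix} (hx : S.On v x) :
    ∀ᵐ ω' ∂(P Ix), edist (sec (J u) ω' x) (sec (J u) ω' (S.A v)) = 0 ∨
      edist (sec (J u) ω' x) (sec (J u) ω' (S.B v)) = 0 := by
  obtain ⟨s, hs, hx⟩ := hx
  filter_upwards [sec_congr_ae (J u) hx] with ω' hω
  unfold Seg at hω
  rw [sec_G_notMem (notMem_J huv)] at hω
  split_ifs at hω
  · exact Or.inr hω
  · exact Or.inl hω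

lemma profile {v : W} (h : S.Act v) {s : ℝ} {x : Pt Ix} (hx : edist x (S.Seg v s) = 0) :
    ∀ᵐ ω' ∂(P Ix), (ω' (some v) ≤ s → edist (sec (J v) ω' x) (S.B v) = 0) ∧
      (s < ω' (some v) → edist (sec (J v) ω' x) (S.A v) = 0) := by
  filter_upwards [sec_congr_ae (J v) hx, h.adA.ae, h.adB.ae] with ω' h1 h2 h3
  unfold Seg at h1
  rw [sec_G_notMem (notMem_J (lt_irrefl v))] at h1
  constructor
  · intro hle
    rw [if_pos hle] at h1
    exact edist_zero_trans h1 h3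
  · intro hlt
    rw [if_neg (not_le.2 hlt)] at h1
    exact edist_zero_trans h1 h2

lemma EP {v : W} (h : S.Act v) {p : Pt Ix} (hp : p ∈ S.X v) (hon : S.On v p) :
    edist p (S.A v) = 0 ∨ edist p (S.B v) = 0 := by
  obtain ⟨s, hs, hx⟩ := hon
  obtain ⟨ω', h1, h2⟩ := ((profile h hx).and (X_ad v hp).ae).exists
  by_cases hle : ω' (some v) ≤ s
  · exact Or.inr (edist_zero_trans (edist_zero_symm h2) (h1.1 hle))
  · exact Or.inl (edist_zero_trans (edist_zero_symm h2) (h1.2 (not_le.1 hle)))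

lemma btw_of_dist {x z y : Pt Ix} (h : dist x z + dist z y = dist x y) : Btw x z y := by
  unfold Btw
  rw [edist_dist, edist_dist, edist_dist, ← ENNReal.ofReal_add dist_nonneg dist_nonneg, h]

lemma Btw.dist {x z y : Pt Ix} (h : Btw x z y) : dist x z + dist z y = dist x y := by
  unfold Btw at h
  rw [dist_eq_toReal, dist_eq_toReal, dist_eq_toReal, ← h,
    ENNReal.toReal_add (edist_ne_top _ _) (edist_ne_top _ _)]

lemma edist_zero_iff {x y : Pt Ix} : edist x y = 0 ↔ dist x y = 0 := by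
  rw [dist_eq_toReal, ENNReal.toReal_eq_zero_iff]
  simp [edist_ne_top]

lemma dist_congr {x y x' y' : Pt Ix} (hx : edist x x' = 0) (hy : edist y y' = 0) :
    dist x y = dist x' y' := by
  rw [dist_eq_toReal, dist_eq_toReal, edist_congr_left hx, edist_congr_right hy]

lemma NC {v w : W} (hw : S.Act w) (hv : S.Act v) (hvw : v < w) (h1 : S.On v (S.A w))
    (h2 : S.On v (S.B w)) : False := by
  obtain ⟨r, hr, h1⟩ := h1
  obtain ⟨t, ht, h2⟩ := h2
  have hm : (r + t) / 2 ∈ Icc (0:ℝ) 1 := ⟨by linarith [hr.1, ht.1], by linarith [hr.2, ht.2]⟩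
  have hd := dist_pos hv
  have e1 : dist (S.A w) (S.Seg v ((r + t) / 2)) = |r - t| / 2 * dist (S.A v) (S.B v) := by
    rw [dist_congr h1 (edist_self _), dist_Seg hv hr hm]
    congr 1
    rw [show r - (r + t) / 2 = (r - t) / 2 by ring, abs_div, abs_two]
  have e2 : dist (S.Seg v ((r + t) / 2)) (S.B w) = |r - t| / 2 * dist (S.A v) (S.B v) := by
    rw [dist_congr (edist_self _) h2, dist_Seg hv hm ht]
    congr 1
    rw [show (r + t) / 2 - t = (r - t) / 2 by ring, abs_div, abs_two]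
  have e3 : dist (S.A w) (S.B w) = |r - t| * dist (S.A v) (S.B v) := by
    rw [dist_congr h1 h2, dist_Seg hv hr ht]
  have hne : 0 < |r - t| * dist (S.A v) (S.B v) := e3 ▸ dist_pos hw
  have hb : Btw (S.A w) (S.Seg v ((r + t) / 2)) (S.B w) := by
    apply btw_of_dist
    rw [e1, e2, e3]; ring
  rcases hw.gap (Seg_mem hv hvw hm) hb with h | h
  · rw [edist_zero_iff, dist_comm, e1] at h
    linarith
  · rw [edist_zero_iff, e2] at h
    linarith

lemma K_lt {v1 v2 : W} (h1 : S.Act v1) (h2 : S.Act v2) (hlt : v1 < v2) {p q : Pt Ix}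
    (hp1 : S.On v1 p) (hp2 : S.On v2 p) (hq1 : S.On v1 q) (hq2 : S.On v2 q) :
    edist p q = 0 := by
  rcases EP h2 (On_mem h1 hlt hp1) hp2 with hp | hp <;>
    rcases EP h2 (On_mem h1 hlt hq1) hq2 with hq | hq
  · exact edist_zero_trans hp (edist_zero_symm hq)
  · exact (NC h2 h1 hlt (hp1.congr hp) (hq1.congr hq)).elim
  · exact (NC h2 h1 hlt (hq1.congr hq) (hp1.congr hp)).elim
  · exact edist_zero_trans hp (edist_zero_symm hq)

lemma K {v1 v2 : W} (h1 : S.Act v1) (h2 : S.Act v2) {p q : Pt Ix} (hpq : edist p q ≠ 0)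
    (hp1 : S.On v1 p) (hp2 : S.On v2 p) (hq1 : S.On v1 q) (hq2 : S.On v2 q) :
    v1 = v2 := by
  rcases lt_trichotomy v1 v2 with h | h | h
  · exact absurd (K_lt h1 h2 h hp1 hp2 hq1 hq2) hpq
  · exact h
  · exact absurd (K_lt h2 h1 h hp2 hp1 hq2 hq1) hpq

end Sys
end H261WS
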