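import Pool.Agent.H261R3.WS.Rec

/-!
The structure theorem: a point strictly between two others lies with them on one constructed
segment. Successor and bottom stages.
-/

set_option autoImplicit false
set_option maxHeartbeats 400000
open MeasureTheory Set Filter
open scoped symmDiff ENNReal Topology

namespace H261WS
namespace Sys

variable {S : Sys}

def HS (S : Sys) (w : W) : Prop :=
  ∀ x z y, x ∈ S.X w → z ∈ S.X w → y ∈ S.X w → Btw x z y → edist z x ≠ 0 → edist z y ≠ 0 →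
    ∃ v, v < w ∧ S.Act v ∧ S.On v x ∧ S.On v z ∧ S.On v y

lemma ne_symm {x y : Pt Ix} (h : edist x y ≠ 0) : edist y x ≠ 0 := by rwa [edist_comm]

/-! ### bottom stage -/

lemma edist_bs {s t s' t' : ℝ} (h0 : 0 ≤ s) (h1 : s ≤ t) (h2 : t ≤ s') (h3 : s' ≤ t')
    (h4 : t' ≤ 1) : edist (bs s t) (bs s' t') = ENNReal.ofReal ((t - s) + (t' - s')) := by
  rw [MeasuredSets.edist_def]
  have he : ((bs s t : Pt Ix) : Set (Ix → ℝ)) ∆ (bs s' t' : Pt Ix) =
      {ω : Ix → ℝ | s < ω none ∧ ω none ≤ t} ∪ {ω : Ix → ℝ | s' < ω none ∧ ω none ≤ t'} := by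
    ext ω
    change ω ∈ ({ω : Ix → ℝ | s < ω none ∧ ω none ≤ t} ∆
      {ω : Ix → ℝ | s' < ω none ∧ ω none ≤ t'} : Set (Ix → ℝ)) ↔ _
    simp only [Set.mem_symmDiff, Set.mem_ofPred_eq, Set.mem_union]
    constructor
    · rintro (⟨h, _⟩ | ⟨h, _⟩)
      · exact Or.inl h
      · exact Or.inr h
    · rintro (h | h)
      · exact Or.inl ⟨h, fun hh => by linarith [h.2, hh.1]⟩
      · exact Or.inr ⟨h, fun hh => by linarith [h.1, hh.2]⟩
  have hdis : Disjoint {ω : Ix → ℝ | s < ω none ∧ ω none ≤ t}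
      {ω : Ix → ℝ | s' < ω none ∧ ω none ≤ t'} := by
    rw [Set.disjoint_left]
    intro ω h h'
    exact absurd h.2 (not_le.2 (h2.trans_lt h'.1))
  have hms : MeasurableSet {ω : Ix → ℝ | s' < ω none ∧ ω none ≤ t'} :=
    (measurable_pi_apply (none : Ix)) measurableSet_Ioc
  rw [he, measure_union hdis hms,
    P_Ioc none h0 (by linarith), P_Ioc none (by linarith) h4,
    ← ENNReal.ofReal_add (by linarith) (by linarith)]

lemma dist_base12 : dist base1 base2 = 2/3 := by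
  rw [dist_eq_toReal]; unfold base1 base2
  rw [edist_bs le_rfl (by norm_num) le_rfl (by norm_num) (by norm_num),
    ENNReal.toReal_ofReal (by norm_num)]
  norm_num

lemma dist_base13 : dist base1 base3 = 2/3 := by
  rw [dist_eq_toReal]; unfold base1 base3
  rw [edist_bs le_rfl (by norm_num) (by norm_num) (by norm_num) (by norm_num),
    ENNReal.toReal_ofReal (by norm_num)]
  norm_num

lemma dist_base23 : dist base2 base3 = 2/3 := by
  rw [dist_eq_toReal]; unfold base2 base3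
  rw [edist_bs (by norm_num) (by norm_num) le_rfl (by norm_num) (by norm_num),
    ENNReal.toReal_ofReal (by norm_num)]
  norm_num

lemma dist_base {x y : Pt Ix} (hx : x ∈ base) (hy : y ∈ base) : dist x y = 0 ∨ dist x y = 2/3 := by
  rcases hx with rfl | rfl | rfl <;> rcases hy with rfl | rfl | rfl
  · exact Or.inl (dist_self _)
  · exact Or.inr dist_base12
  · exact Or.inr dist_base13
  · exact Or.inr (by rw [dist_comm]; exact dist_base12)
  · exact Or.inl (dist_self _)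
  · exact Or.inr dist_base23
  · exact Or.inr (by rw [dist_comm]; exact dist_base13)
  · exact Or.inr (by rw [dist_comm]; exact dist_base23)
  · exact Or.inl (dist_self _)

lemma base_finite : base.Finite := by unfold base; exact (Set.finite_singleton _).insert _ |>.insert _

lemma HS_bot {w : W} (hw : ∀ u, ¬ u < w) : HS S w := by
  intro x z y hx hz hy hb hzx hzy
  exfalso
  have hrep : ∀ p : Pt Ix, p ∈ S.X w → ∃ q ∈ base, edist p q = 0 := by
    intro p hp
    have hg : S.gen w = base := by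
      unfold gen
      ext q
      constructor
      · rintro (h | ⟨v, h, _⟩)
        · exact h
        · exact absurd h (hw v)
      · exact fun h => Or.inl h
    rw [X_eq, hg] at hp
    obtain ⟨q, hq, hpq⟩ := base_finite.isCompact.mem_closure_iff_exists_inseparable.1 hp
    exact ⟨q, hq, EMetric.inseparable_iff.1 hpq.symm⟩
  obtain ⟨x', hx', ex⟩ := hrep x hx
  obtain ⟨z', hz', ez⟩ := hrep z hz
  obtain ⟨y', hy', ey⟩ := hrep y hy
  have hb' := (hb.congr ex ez ey)
  have hd := Btw.dist hb'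
  have h1 : dist x' z' ≠ 0 := by
    intro h
    apply hzx
    rw [edist_zero_iff, dist_congr ez ex, dist_comm]; exact h
  have h2 : dist z' y' ≠ 0 := by
    intro h
    apply hzy
    rw [edist_zero_iff, dist_congr ez ey]; exact h
  have e1 := (dist_base hx' hz').resolve_left h1
  have e2 := (dist_base hz' hy').resolve_left h2
  rw [e1, e2] at hd
  rcases dist_base hx' hy' with h | h <;> rw [h] at hd <;> norm_num at hd

/-! ### lemmas at a stage where a segment is added -/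

lemma Two {v : W} (h : S.Act v) (H : HS S v) {z y : Pt Ix} (hz : z ∈ S.X v) (hy : y ∈ S.X v)
    (ha : Btw (S.A v) z y) (hb : Btw (S.B v) z y) (hzy : edist z y ≠ 0) : False := by
  by_cases h1 : edist z (S.A v) = 0
  · -- `A` is between `B` and `y`
    have hb' : Btw (S.B v) (S.A v) y := hb.congr (edist_self _) h1 (edist_self _)
    obtain ⟨v', hlt, hact, o1, o2, o3⟩ := H _ _ _ h.B_mem h.A_mem hy hb' h.ne
      (by rwa [← edist_congr_left h1])
    exact NC h hact hlt o2 o1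
  · by_cases h2 : edist z (S.B v) = 0
    · have ha' : Btw (S.A v) (S.B v) y := ha.congr (edist_self _) h2 (edist_self _)
      obtain ⟨v', hlt, hact, o1, o2, o3⟩ := H _ _ _ h.A_mem h.B_mem hy ha' (ne_symm h.ne)
        (by rwa [← edist_congr_left h2])
      exact NC h hact hlt o1 o2
    · obtain ⟨v1, hlt1, hact1, o1, o2, o3⟩ := H _ _ _ h.A_mem hz hy ha h1 hzy
      obtain ⟨v2, hlt2, hact2, p1, p2, p3⟩ := H _ _ _ h.B_mem hz hy hb h2 hzy
      have := K hact1 hact2 hzy o2 p2 o3 p3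
      subst this
      exact NC h hact1 hlt1 o1 p1

lemma EndA {v : W} (h : S.Act v) (H : HS S v) {x : Pt Ix} (hx : x ∈ S.X v)
    (hb : Btw x (S.A v) (S.B v)) : edist x (S.A v) = 0 := by
  by_contra hne
  obtain ⟨v', hlt, hact, o1, o2, o3⟩ := H _ _ _ hx h.A_mem h.B_mem hb (ne_symm hne) h.ne
  exact NC h hact hlt o2 o3

lemma EndB {v : W} (h : S.Act v) (H : HS S v) {x : Pt Ix} (hx : x ∈ S.X v)
    (hb : Btw x (S.B v) (S.A v)) : edist x (S.B v) = 0 := by
  by_contra hne
  obtain ⟨v', hlt, hact, o1, o2, o3⟩ := H _ _ _ hx h.B_mem h.A_mem hb (ne_symm hne)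
    (ne_symm h.ne)
  exact NC h hact hlt o3 o2

lemma Mid {v : W} (h : S.Act v) (H : HS S v) {x y : Pt Ix} (hx : x ∈ S.X v) (hy : y ∈ S.X v)
    (ha : Btw x (S.A v) y) (hb : Btw x (S.B v) y) :
    (edist x (S.A v) = 0 ∧ edist y (S.B v) = 0) ∨ (edist x (S.B v) = 0 ∧ edist y (S.A v) = 0) := by
  by_cases a1 : edist (S.A v) x = 0
  · have hb' : Btw (S.A v) (S.B v) y := hb.congr (edist_zero_symm a1) (edist_self _) (edist_self _)
    have := EndB h H hy hb'.symm
    exact Or.inl ⟨edist_zero_symm a1, this⟩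
  · by_cases a2 : edist (S.A v) y = 0
    · have hb' : Btw x (S.B v) (S.A v) := hb.congr (edist_self _) (edist_self _) (edist_zero_symm a2)
      exact Or.inr ⟨EndB h H hx hb', edist_zero_symm a2⟩
    · exfalso
      obtain ⟨v1, hlt1, hact1, o1, o2, o3⟩ := H _ _ _ hx h.A_mem hy ha a1 a2
      by_cases b1 : edist (S.B v) x = 0
      · exact NC h hact1 hlt1 o2 (o1.congr (edist_zero_symm b1))
      · by_cases b2 : edist (S.B v) y = 0
        · exact NC h hact1 hlt1 o2 (o3.congr (edist_zero_symm b2))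
        · obtain ⟨v2, hlt2, hact2, p1, p2, p3⟩ := H _ _ _ hx h.B_mem hy hb b1 b2
          have hxy : edist x y ≠ 0 := fun hxy => a1 (ha.eq_of_eq hxy)
          have := K hact1 hact2 hxy o1 p1 o3 p3
          subst this
          exact NC h hact1 hlt1 o2 p2

/-! ### successor stage -/

lemma On_closed {v : W} (h : S.Act v) : IsClosed {x | S.On v x} := by
  have hcont : ContinuousOn (S.Seg v) (Icc (0:ℝ) 1) := by
    apply LipschitzOnWith.continuousOn (K := Real.toNNReal (dist (S.A v) (S.B v)))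
    apply LipschitzOnWith.of_dist_le_mul
    intro s hs t ht
    rw [dist_Seg h hs ht, Real.coe_toNNReal _ dist_nonneg, Real.dist_eq, mul_comm]
  have hK : IsCompact (S.Seg v '' Icc (0:ℝ) 1) := isCompact_Icc.image_of_continuousOn hcont
  have he : {x | S.On v x} = closure (S.Seg v '' Icc (0:ℝ) 1) := by
    ext x
    rw [hK.mem_closure_iff_exists_inseparable]
    constructor
    · rintro ⟨s, hs, hx⟩
      exact ⟨_, ⟨s, hs, rfl⟩, (EMetric.inseparable_iff.2 hx).symm⟩
    · rintro ⟨_, ⟨s, hs, rfl⟩, hx⟩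
      exact ⟨s, hs, EMetric.inseparable_iff.1 hx.symm⟩
  rw [he]; exact isClosed_closure

lemma X_succ {v w : W} (h : S.Act v) (hcov : ∀ u < w, u ≤ v) {x : Pt Ix} (hx : x ∈ S.X w) :
    x ∈ S.X v ∨ ∃ s, 0 < s ∧ s < 1 ∧ edist x (S.Seg v s) = 0 := by
  have hsub : S.gen w ⊆ S.X v ∪ {x | S.On v x} := by
    rintro x (hx | ⟨u, h1, h2, s, hs, rfl⟩)
    · exact Or.inl (subset_closure (Or.inl hx))
    · rcases (hcov u h1).lt_or_eq with hlt | rfl
      · exact Or.inl (Seg_mem h2 hlt hs)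
      · exact Or.inr ⟨s, hs, edist_self _⟩
  have := closure_minimal hsub ((S.X_closed v).union (On_closed h)) hx
  rcases this with h1 | ⟨s, hs, hxs⟩
  · exact Or.inl h1
  · rcases hs.1.lt_or_eq with h0 | h0
    · rcases hs.2.lt_or_eq with h1 | h1
      · exact Or.inr ⟨s, h0, h1, hxs⟩
      · subst h1
        exact Or.inl (X_congr h.B_mem (edist_zero_trans (Seg_one h) (edist_zero_symm hxs)))
    · subst h0
      exact Or.inl (X_congr h.A_mem (edist_zero_trans (Seg_zero h) (edist_zero_symm hxs)))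

lemma X_succ' {v w : W} (h : ¬ S.Act v) (hcov : ∀ u < w, u ≤ v) {x : Pt Ix} (hx : x ∈ S.X w) :
    x ∈ S.X v := by
  have hsub : S.gen w ⊆ S.X v := by
    rintro x (hx | ⟨u, h1, h2, s, hs, rfl⟩)
    · exact subset_closure (Or.inl hx)
    · rcases (hcov u h1).lt_or_eq with hlt | rfl
      · exact Seg_mem h2 hlt hs
      · exact absurd h2 h
  exact closure_minimal hsub (S.X_closed v) hx

/-- the section at stage `v` is a.e. the value of `f` at the `v`-th coordinate -/
def Rep (v : W) (x : Pt Ix) (f : ℝ → Pt Ix) : Prop :=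
  ∀ᵐ ω' ∂(P Ix), edist (sec (J v) ω' x) (f (ω' (some v))) = 0

lemma rep_X {v : W} {x : Pt Ix} (hx : x ∈ S.X v) : Rep v x (fun _ => x) := (X_ad v hx).ae

lemma rep_I {v : W} (h : S.Act v) {x : Pt Ix} {s : ℝ} (hx : edist x (S.Seg v s) = 0) :
    Rep v x (fun θ => if θ ≤ s then S.B v else S.A v) := by
  unfold Rep
  filter_upwards [profile h hx] with ω' h1
  by_cases hle : ω' (some v) ≤ s
  · simp only [hle, if_true]; exact h1.1 hle
  · simp only [hle, if_false]; exact h1.2 (not_le.1 hle)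

lemma rep_btw {v : W} {x z y : Pt Ix} {fx fz fy : ℝ → Pt Ix} (hx : Rep v x fx) (hz : Rep v z fz)
    (hy : Rep v y fy) (hb : Btw x z y) {α β : ℝ} (h0 : 0 ≤ α) (hαβ : α < β) (h1 : β ≤ 1) :
    ∃ θ, α < θ ∧ θ ≤ β ∧ Btw (fx θ) (fz θ) (fy θ) := by
  unfold Rep at hx hz hy
  obtain ⟨ω', h, h2, h3⟩ := pick (some v : Ix) (hx.and (hz.and (hy.and (btw_sec (J v) hb))))
    h0 hαβ h1
  exact ⟨ω' (some v), h2, h3, h.2.2.2.congr h.1 h.2.1 h.2.2.1⟩

lemma caseZ_X {v : W} (h : S.Act v) (H : HS S v) {x z y : Pt Ix} (hz : z ∈ S.X v)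
    {s : ℝ} (hs0 : 0 < s) (hs1 : s < 1) (hxs : edist x (S.Seg v s) = 0)
    (hy : y ∈ S.X v ∨ ∃ t, 0 < t ∧ t < 1 ∧ edist y (S.Seg v t) = 0)
    (hb : Btw x z y) (hzy : edist z y ≠ 0) : False := by
  rcases hy with hy | ⟨t, ht0, ht1, hyt⟩
  · obtain ⟨θ, h1, h2, h3⟩ := rep_btw (rep_I h hxs) (rep_X hz) (rep_X hy) hb le_rfl hs0 hs1.le
    obtain ⟨θ', h1', h2', h3'⟩ := rep_btw (rep_I h hxs) (rep_X hz) (rep_X hy) hb hs0.le hs1 le_rfl
    simp only [h2, if_true] at h3
    simp only [not_le.2 h1', if_false] at h3'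
    exact Two h H hz hy h3' h3 hzy
  · obtain ⟨θ, h1, h2, h3⟩ := rep_btw (rep_I h hxs) (rep_X hz) (rep_I h hyt) hb le_rfl
      (lt_min hs0 ht0) ((min_le_left _ _).trans hs1.le)
    obtain ⟨θ', h1', h2', h3'⟩ := rep_btw (rep_I h hxs) (rep_X hz) (rep_I h hyt) hb
      (hs0.le.trans (le_max_left s t)) (max_lt hs1 ht1) le_rfl
    simp only [h2.trans (min_le_left _ _), h2.trans (min_le_right _ _), if_true] at h3
    simp only [not_le.2 ((le_max_left _ _).trans_lt h1'), not_le.2 ((le_max_right _ _).trans_lt h1'),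
      if_false] at h3'
    have e1 := h3.eq_of_eq (edist_self _)
    have e2 := h3'.eq_of_eq (edist_self _)
    exact h.ne (edist_zero_trans (edist_zero_symm e2) e1)

lemma caseZ_I {v : W} (h : S.Act v) (H : HS S v) {x z y : Pt Ix} (hx : x ∈ S.X v)
    {s t : ℝ} (hs0 : 0 < s) (hs1 : s < 1) (hzs : edist z (S.Seg v s) = 0)
    (ht0 : 0 < t) (ht1 : t < 1) (hyt : edist y (S.Seg v t) = 0)
    (hb : Btw x z y) (hzy : edist z y ≠ 0) : S.On v x := by
  rcases lt_trichotomy s t with hst | hst | hst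
  · obtain ⟨θ, h1, h2, h3⟩ := rep_btw (rep_X hx) (rep_I h hzs) (rep_I h hyt) hb hs0.le hst ht1.le
    simp only [not_le.2 h1, h2, if_true, if_false] at h3
    exact (On_A h).congr (edist_zero_symm (EndA h H hx h3))
  · subst hst
    exact absurd (edist_zero_trans hzs (edist_zero_symm hyt)) hzy
  · obtain ⟨θ, h1, h2, h3⟩ := rep_btw (rep_X hx) (rep_I h hzs) (rep_I h hyt) hb ht0.le hst hs1.le
    simp only [not_le.2 h1, h2, if_true, if_false] at h3
    exact (On_B h).congr (edist_zero_symm (EndB h H hx h3))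

lemma HS_succ {v w : W} (H : HS S v) (hvw : v < w) (hcov : ∀ u < w, u ≤ v) : HS S w := by
  intro x z y hx hz hy hb hzx hzy
  by_cases h : S.Act v
  · have hx' := X_succ h hcov hx
    have hy' := X_succ h hcov hy
    rcases X_succ h hcov hz with hz1 | ⟨s, hs0, hs1, hzs⟩
    · rcases hx' with hx1 | ⟨r, hr0, hr1, hxr⟩
      · rcases hy' with hy1 | ⟨t, ht0, ht1, hyt⟩
        · obtain ⟨v', h1, h2⟩ := H x z y hx1 hz1 hy1 hb hzx hzy
          exact ⟨v', h1.trans hvw, h2⟩
        · exact (caseZ_X h H hz1 ht0 ht1 hyt (Or.inl hx1) hb.symm hzx).elim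
      · exact (caseZ_X h H hz1 hr0 hr1 hxr hy' hb hzy).elim
    · have hOz : S.On v z := ⟨s, ⟨hs0.le, hs1.le⟩, hzs⟩
      refine ⟨v, hvw, h, ?_⟩
      rcases hx' with hx1 | ⟨r, hr0, hr1, hxr⟩
      · rcases hy' with hy1 | ⟨t, ht0, ht1, hyt⟩
        · obtain ⟨θ, h1, h2, h3⟩ := rep_btw (rep_X hx1) (rep_I h hzs) (rep_X hy1) hb le_rfl hs0 hs1.le
          obtain ⟨θ', h1', h2', h3'⟩ := rep_btw (rep_X hx1) (rep_I h hzs) (rep_X hy1) hb hs0.le hs1
            le_rfl
          simp only [h2, if_true] at h3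
          simp only [not_le.2 h1', if_false] at h3'
          rcases Mid h H hx1 hy1 h3' h3 with ⟨e1, e2⟩ | ⟨e1, e2⟩
          · exact ⟨(On_A h).congr (edist_zero_symm e1), hOz, (On_B h).congr (edist_zero_symm e2)⟩
          · exact ⟨(On_B h).congr (edist_zero_symm e1), hOz, (On_A h).congr (edist_zero_symm e2)⟩
        · exact ⟨caseZ_I h H hx1 hs0 hs1 hzs ht0 ht1 hyt hb hzy, hOz, ⟨t, ⟨ht0.le, ht1.le⟩, hyt⟩⟩
      · rcases hy' with hy1 | ⟨t, ht0, ht1, hyt⟩
        · exact ⟨⟨r, ⟨hr0.le, hr1.le⟩, hxr⟩, hOz,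
            caseZ_I h H hy1 hs0 hs1 hzs hr0 hr1 hxr hb.symm hzx⟩
        · exact ⟨⟨r, ⟨hr0.le, hr1.le⟩, hxr⟩, hOz, ⟨t, ⟨ht0.le, ht1.le⟩, hyt⟩⟩
  · obtain ⟨v', h1, h2⟩ := H x z y (X_succ' h hcov hx) (X_succ' h hcov hz) (X_succ' h hcov hy)
      hb hzx hzy
    exact ⟨v', h1.trans hvw, h2⟩

end Sys
end H261WS
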